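import Pool.Agent.Q131.EL.Push

/-!
# Linear projections as charts of Lagrangian submanifolds of the cotangent bundle of the torus
-/

set_option autoImplicit false

open Set Filter Topology Metric Function
open scoped ContDiff RealInnerProductSpace

noncomputable section

namespace Pool.Agent.Q131.EL

open Pool.Agent.Y522.ML

variable {n : ℕ}

/-- a linear map which is injective on the tangent space is a chart -/
theorem chartF {Λ : Set (E n × E n)} {F : E n → E n × E n} (hF : ContDiff ℝ ∞ F)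
    (hU : ∀ V : Set (E n), IsOpen V → ∃ U : Set (E n × E n), IsOpen U ∧ F '' V = Λ ∩ U)
    (Ξ : E n × E n →L[ℝ] E n) (hinj : Injective fun v => Ξ (fderiv ℝ F 0 v)) :
    ∃ (U : Set (E n × E n)) (σ : E n → E n × E n), IsOpen U ∧ F 0 ∈ U ∧
      ContDiffAt ℝ ∞ σ (Ξ (F 0)) ∧ (∀ w ∈ Λ, w ∈ U → σ (Ξ w) = w) ∧
      ∀ᶠ y in 𝓝 (Ξ (F 0)), σ y ∈ Λ ∧ Ξ (σ y) = y := by
  have hFΛ := mem_of_open hU
  obtain ⟨G, hGd⟩ : ∃ G : E n → E n, G = fun s => Ξ (F s) := ⟨_, rfl⟩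
  have hG : ContDiff ℝ ∞ G := by
    rw [hGd]
    exact Ξ.contDiff.comp hF
  have hGF : ∀ s v, fderiv ℝ G s v = Ξ (fderiv ℝ F s v) := by
    intro s v
    have h1 : HasFDerivAt F (fderiv ℝ F s) s :=
      (hF.differentiable (by simp)).differentiableAt.hasFDerivAt
    have h2 : HasFDerivAt G (Ξ.comp (fderiv ℝ F s)) s := by
      rw [hGd]
      exact Ξ.hasFDerivAt.comp s h1
    rw [h2.fderiv]
    rfl
  have hinj' : Injective (fderiv ℝ G 0 : E n →ₗ[ℝ] E n) := by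
    intro v w hvw
    refine hinj ?_
    have h1 : fderiv ℝ G 0 v = fderiv ℝ G 0 w := hvw
    rw [hGF, hGF] at h1
    exact h1
  let e : E n ≃L[ℝ] E n := (LinearEquiv.ofInjectiveEndo _ hinj').toContinuousLinearEquiv
  have he0 : (e : E n →L[ℝ] E n) = fderiv ℝ G 0 := by
    ext1 v
    rfl
  have he : HasFDerivAt G (e : E n →L[ℝ] E n) 0 := by
    rw [he0]
    exact ((hG.differentiable (by simp)).differentiableAt (x := (0 : E n))).hasFDerivAt
  have hGa : ContDiffAt ℝ ∞ G 0 := hG.contDiffAt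
  have hn : (∞ : WithTop ℕ∞) ≠ 0 := by simp
  have hG0 : G 0 = Ξ (F 0) := by rw [hGd]
  have hl := (hGa.hasStrictFDerivAt' he hn).eventually_left_inverse
  obtain ⟨V, hVs, hVo, hV0⟩ := _root_.mem_nhds_iff.1 hl
  obtain ⟨U, hUo, hUV⟩ := hU V hVo
  refine ⟨U, fun x => F (hGa.localInverse he hn x), hUo, ?_, ?_, ?_, ?_⟩
  · have h3 : F 0 ∈ F '' V := mem_image_of_mem _ hV0
    rw [hUV] at h3
    exact h3.2
  · rw [← hG0]
    exact hF.contDiffAt.comp _ (hGa.to_localInverse he hn)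
  · intro w hw hwU
    have h3 : w ∈ F '' V := by rw [hUV]; exact ⟨hw, hwU⟩
    obtain ⟨x, hx, rfl⟩ := h3
    have h4 : hGa.localInverse he hn (G x) = x := hVs hx
    have h5 : Ξ (F x) = G x := (congrFun hGd x).symm
    show F (hGa.localInverse he hn (Ξ (F x))) = F x
    rw [h5, h4]
  · rw [← hG0]
    have h3 := (hGa.hasStrictFDerivAt' he hn).eventually_right_inverse
    filter_upwards [h3] with x hx
    have h4 : G (hGa.localInverse he hn x) = x := hx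
    exact ⟨hFΛ _, (congrFun hGd _).symm.trans h4⟩

/-- a curve in a chart -/
theorem curveChart {Λ U : Set (E n × E n)} {σ : E n → E n × E n} {Ξ : E n × E n →L[ℝ] E n}
    (hU : IsOpen U) (hσ : ∀ w ∈ Λ, w ∈ U → σ (Ξ w) = w) {w a : E n × E n} (hwU : w ∈ U)
    (hd : DifferentiableAt ℝ σ (Ξ w)) (ha : Tan Λ w a) : a = fderiv ℝ σ (Ξ w) (Ξ a) := by
  obtain ⟨γ, g1, g2, g3, g4⟩ := ha
  have d1 : HasDerivAt γ a 0 := by
    rw [← g4]
    exact (g1.differentiableAt (by simp)).hasDerivAt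
  have d2 : HasDerivAt (fun s => Ξ (γ s)) (Ξ a) 0 := Ξ.hasFDerivAt.comp_hasDerivAt (0 : ℝ) d1
  have hd' : HasFDerivAt σ (fderiv ℝ σ (Ξ w)) ((fun s => Ξ (γ s)) 0) := by
    show HasFDerivAt σ _ (Ξ (γ 0))
    rw [g3]
    exact hd.hasFDerivAt
  have d3 : HasDerivAt (fun s => σ (Ξ (γ s))) (fderiv ℝ σ (Ξ w) (Ξ a)) 0 :=
    hd'.comp_hasDerivAt (0 : ℝ) d2
  refine d1.unique (d3.congr_of_eventuallyEq ?_)
  have g5 : ∀ᶠ s in 𝓝 (0 : ℝ), γ s ∈ U :=
    g1.continuousAt.eventually (by rw [g3]; exact hU.mem_nhds hwU)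
  filter_upwards [g2, g5] with s h1 h2
  exact (hσ _ h1 h2).symm

/-- the tangent space is the image of the derivative of a parametrization -/
theorem tan_rangeF {Λ : Set (E n × E n)} {F : E n → E n × E n} (hF : ContDiff ℝ ∞ F)
    (hU : ∀ V : Set (E n), IsOpen V → ∃ U : Set (E n × E n), IsOpen U ∧ F '' V = Λ ∩ U)
    (hAi : Injective (fderiv ℝ F 0)) {a : E n × E n} (ha : Tan Λ (F 0) a) :
    ∃ v, a = fderiv ℝ F 0 v := by
  have hFΛ := mem_of_open hU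
  obtain ⟨B, hB⟩ := LinearMap.exists_leftInverse_of_injective (fderiv ℝ F 0 : E n →ₗ[ℝ] E n × E n)
    (LinearMap.ker_eq_bot.2 hAi)
  obtain ⟨Ξ, hΞd⟩ : ∃ Ξ : E n × E n →L[ℝ] E n, Ξ = LinearMap.toContinuousLinearMap B := ⟨_, rfl⟩
  have hΞ : ∀ v, Ξ (fderiv ℝ F 0 v) = v := by
    intro v
    rw [hΞd]
    exact LinearMap.congr_fun hB v
  obtain ⟨U, σ, u1, u2, u3, u4, u5⟩ := chartF hF hU Ξ (fun v w h => by
    have h' : Ξ (fderiv ℝ F 0 v) = Ξ (fderiv ℝ F 0 w) := h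
    rwa [hΞ, hΞ] at h')
  have h1 := curveChart u1 u4 u2 (u3.differentiableAt (by simp)) ha
  -- the derivative of `σ` has the range of the derivative of `F`
  have h2 : HasFDerivAt F (fderiv ℝ F 0) 0 :=
    (hF.differentiable (by simp)).differentiableAt.hasFDerivAt
  have h3 : HasFDerivAt (fun x => σ (Ξ (F x)))
      ((fderiv ℝ σ (Ξ (F 0))).comp (Ξ.comp (fderiv ℝ F 0))) 0 := by
    have h4 : HasFDerivAt σ (fderiv ℝ σ (Ξ (F 0))) (Ξ (F 0)) :=
      (u3.differentiableAt (by simp)).hasFDerivAt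
    exact h4.comp (0 : E n) (Ξ.hasFDerivAt.comp (0 : E n) h2)
  have h5 : (fun x => σ (Ξ (F x))) =ᶠ[𝓝 0] F := by
    have h6 : ∀ᶠ x in 𝓝 (0 : E n), F x ∈ U :=
      hF.continuous.continuousAt.eventually (u1.mem_nhds u2)
    filter_upwards [h6] with x hx
    exact u4 _ (hFΛ x) hx
  have h7 := (h3.congr_of_eventuallyEq h5.symm).unique h2
  refine ⟨Ξ a, ?_⟩
  have h8 := congrArg (fun L : E n →L[ℝ] E n × E n => L (Ξ a)) h7
  simp only [ContinuousLinearMap.comp_apply, hΞ] at h8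
  rw [← h8]
  exact h1

/-- the tangent space is the image of an injective linear map -/
theorem tan_range {Λ : Set (E n × E n)} (hΛ : LagT n Λ) {z : E n × E n} (hz : z ∈ Λ) :
    ∃ A : E n →L[ℝ] E n × E n, Injective A ∧ (∀ v w, om (A v) (A w) = 0) ∧
      ∀ a, Tan Λ z a ↔ ∃ v, a = A v := by
  obtain ⟨F, hF, hF0, -, hU, himm, hiso⟩ := hΛ.par z hz
  have hFΛ := mem_of_open hU
  have hAi : Injective (fderiv ℝ F 0) := by
    intro v w hvw
    have h1 : fderiv ℝ F 0 (v - w) = 0 := by rw [map_sub, hvw, sub_self]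
    exact sub_eq_zero.1 (himm _ _ h1)
  refine ⟨fderiv ℝ F 0, hAi, fun v w => hiso 0 v w, fun a => ⟨fun ha => ?_, ?_⟩⟩
  · rw [← hF0] at ha
    exact tan_rangeF hF hU hAi ha
  · rintro ⟨v, rfl⟩
    have h1 := tan_of hF hFΛ 0 v
    rwa [hF0] at h1

theorem Tan.add {Λ : Set (E n × E n)} (hΛ : LagT n Λ) {z : E n × E n} (hz : z ∈ Λ)
    {a b : E n × E n} (ha : Tan Λ z a) (hb : Tan Λ z b) : Tan Λ z (a + b) := by
  obtain ⟨A, -, -, h⟩ := tan_range hΛ hz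
  rw [h] at ha hb ⊢
  obtain ⟨v, rfl⟩ := ha
  obtain ⟨w, rfl⟩ := hb
  exact ⟨v + w, (map_add _ _ _).symm⟩

theorem Tan.smul {Λ : Set (E n × E n)} (hΛ : LagT n Λ) {z : E n × E n} (hz : z ∈ Λ)
    {a : E n × E n} (ha : Tan Λ z a) (t : ℝ) : Tan Λ z (t • a) := by
  obtain ⟨A, -, -, h⟩ := tan_range hΛ hz
  rw [h] at ha ⊢
  obtain ⟨v, rfl⟩ := ha
  exact ⟨t • v, (map_smul _ _ _).symm⟩

theorem Tan.iso {Λ : Set (E n × E n)} (hΛ : LagT n Λ) {z : E n × E n} (hz : z ∈ Λ)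
    {a b : E n × E n} (ha : Tan Λ z a) (hb : Tan Λ z b) : ⟪a.2, b.1⟫ = ⟪b.2, a.1⟫ := by
  obtain ⟨A, -, h1, h⟩ := tan_range hΛ hz
  rw [h] at ha hb
  obtain ⟨v, rfl⟩ := ha
  obtain ⟨w, rfl⟩ := hb
  have := h1 v w
  unfold om at this
  linarith

/-- a linear map which is injective on the tangent space is a chart -/
theorem chart {Λ : Set (E n × E n)} (hΛ : LagT n Λ) {z : E n × E n} (hz : z ∈ Λ)
    (Ξ : E n × E n →L[ℝ] E n) (h : ∀ a, Tan Λ z a → Ξ a = 0 → a = 0) :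
    ∃ (U : Set (E n × E n)) (σ : E n → E n × E n), IsOpen U ∧ z ∈ U ∧
      ContDiffAt ℝ ∞ σ (Ξ z) ∧ (∀ w ∈ Λ, w ∈ U → σ (Ξ w) = w) ∧
      ∀ᶠ y in 𝓝 (Ξ z), σ y ∈ Λ ∧ Ξ (σ y) = y := by
  obtain ⟨F, hF, hF0, -, hU, himm, hiso⟩ := hΛ.par z hz
  have hFΛ := mem_of_open hU
  have h2 := chartF hF hU Ξ (fun v w hvw => by
    have h1 : Ξ (fderiv ℝ F 0 (v - w)) = 0 := by
      have h3 : Ξ (fderiv ℝ F 0 v) = Ξ (fderiv ℝ F 0 w) := hvw
      rw [map_sub, map_sub, h3, sub_self]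
    have h4 := tan_of hF hFΛ 0 (v - w)
    rw [hF0] at h4
    exact sub_eq_zero.1 (himm _ _ (h _ h4 h1)))
  rwa [hF0] at h2

end Pool.Agent.Q131.EL
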