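import Pool.Agent.Q131.EL.Chart

/-!
# Points of corank one where the projection to the base is locally injective
-/

set_option autoImplicit false

open Set Filter Topology Metric Function
open scoped ContDiff RealInnerProductSpace

noncomputable section

namespace Pool.Agent.Q131.EL

open Pool.Agent.Y522.ML

variable {n : ℕ}

/-- near `z` the tangent spaces are semidefinite with the sign `ε` -/
def Sgn (Λ : Set (E n × E n)) (ε : ℝ) (z : E n × E n) : Prop :=
  ∃ U ∈ 𝓝 z, ∃ C : ℝ, ∀ w ∈ Λ, w ∈ U → ∀ a, Tan Λ w a → -C * ‖a.1‖ ^ 2 ≤ ε * ⟪a.1, a.2⟫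

/-- the submanifold is transverse to the fibre at `z` -/
def Trans (Λ : Set (E n × E n)) (z : E n × E n) : Prop := ∀ a, Tan Λ z a → a.1 = 0 → a = 0

/-- exchange of the coordinates in the direction `w` -/
def Xi (w : E n) : E n × E n →L[ℝ] E n :=
  ContinuousLinearMap.fst ℝ (E n) (E n)
    - ((innerSL ℝ w).comp (ContinuousLinearMap.fst ℝ (E n) (E n))).smulRight w
    + ((innerSL ℝ w).comp (ContinuousLinearMap.snd ℝ (E n) (E n))).smulRight w

theorem xi_apply (w : E n) (a : E n × E n) : Xi w a = a.1 - ⟪w, a.1⟫ • w + ⟪w, a.2⟫ • w := rfl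

theorem inner_xi {w : E n} (hw : ‖w‖ = 1) (a : E n × E n) : ⟪w, Xi w a⟫ = ⟪w, a.2⟫ := by
  have h1 : ⟪w, w⟫ = 1 := by rw [real_inner_self_eq_norm_sq, hw]; norm_num
  rw [xi_apply, inner_add_right, inner_sub_right, inner_smul_right, inner_smul_right, h1]
  ring

/-- the tangent space in a chart -/
theorem tan_chart {Λ U : Set (E n × E n)} (hΛ : LagT n Λ) {σ : E n → E n × E n}
    {Ξ : E n × E n →L[ℝ] E n} (hU : IsOpen U) (hσ : ∀ w ∈ Λ, w ∈ U → σ (Ξ w) = w)
    {w : E n × E n} (hw : w ∈ Λ) (hwU : w ∈ U) (hd : DifferentiableAt ℝ σ (Ξ w)) (η : E n) :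
    Tan Λ w (fderiv ℝ σ (Ξ w) η) ∧ Ξ (fderiv ℝ σ (Ξ w) η) = η := by
  obtain ⟨A, hA, -, h⟩ := tan_range hΛ hw
  have h1 : Injective (Ξ.comp A : E n →ₗ[ℝ] E n) := by
    intro u v huv
    have h2 : Ξ (A u) = Ξ (A v) := huv
    have h3 := curveChart hU hσ hwU hd ((h (A u)).2 ⟨u, rfl⟩)
    have h4 := curveChart hU hσ hwU hd ((h (A v)).2 ⟨v, rfl⟩)
    refine hA ?_
    rw [h3, h4, h2]
  obtain ⟨v, hv⟩ := (LinearMap.injective_iff_surjective.1 h1) η
  have hv' : Ξ (A v) = η := hv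
  have h3 := curveChart hU hσ hwU hd ((h (A v)).2 ⟨v, rfl⟩)
  rw [hv'] at h3
  rw [← h3]
  exact ⟨(h _).2 ⟨v, rfl⟩, hv'⟩

/-- a continuous function without zeros on a convex set -/
theorem sign_const {W : Type} [NormedAddCommGroup W] [NormedSpace ℝ W] {D : Set W}
    (hD : Convex ℝ D) {h : W → ℝ} (hc : ContinuousOn h D) (h0 : ∀ p ∈ D, h p ≠ 0) :
    ∃ ε : ℝ, (ε = 1 ∨ ε = -1) ∧ ∀ p ∈ D, 0 < ε * h p := by
  by_cases h1 : ∀ p ∈ D, 0 < h p
  · exact ⟨1, Or.inl rfl, fun p hp => by rw [one_mul]; exact h1 p hp⟩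
  · push Not at h1
    obtain ⟨p, hp, hle⟩ := h1
    refine ⟨-1, Or.inr rfl, fun q hq => ?_⟩
    by_contra hcon
    have h2 : 0 ≤ h q := by linarith
    obtain ⟨x, hx, he⟩ := hD.isPreconnected.intermediate_value₂ hp hq hc continuousOn_const hle h2
    exact h0 x hx he

/-- a point of corank one where the projection to the base is locally injective -/
theorem fold {Λ : Set (E n × E n)} (hΛ : LagT n Λ) {z : E n × E n} (hz : z ∈ Λ) {w : E n}
    (hw : ‖w‖ = 1) (hwt : Tan Λ z (0, w))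
    (hc : ∀ a, Tan Λ z a → a.1 = 0 → ∃ t : ℝ, a = t • ((0 : E n), w))
    (hinj : ∃ U ∈ 𝓝 z, InjOn Prod.fst (Λ ∩ U)) :
    (∃ ε : ℝ, (ε = 1 ∨ ε = -1) ∧ Sgn Λ ε z) ∧ ∀ N ∈ 𝓝 z, ∃ y ∈ Λ, y ∈ N ∧ Trans Λ y := by
  have hww : ⟪w, w⟫ = 1 := by rw [real_inner_self_eq_norm_sq, hw]; norm_num
  have hw0 : w ≠ 0 := fun h => by rw [h, norm_zero] at hw; exact zero_ne_one hw
  obtain ⟨U, σ, u1, u2, u3, u4, u5⟩ := chart hΛ hz (Xi w) (fun a ha h0 => by
    have h1 : ⟪w, a.2⟫ = 0 := by rw [← inner_xi hw, h0, inner_zero_right]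
    have h2 := Tan.iso hΛ hz ha hwt
    simp only [inner_zero_right] at h2
    have h3 : a.1 = 0 := by
      rw [xi_apply, h1, ← h2, zero_smul, sub_zero, add_zero] at h0
      exact h0
    obtain ⟨t, ht⟩ := hc a ha h3
    have h4 : a.2 = t • w := by rw [ht]; rfl
    rw [h4, inner_smul_right, hww, mul_one] at h1
    rw [ht, h1, zero_smul])
  obtain ⟨U₀, hU₀, hi⟩ := hinj
  have hσ0 : σ (Xi w z) = z := u4 z hz u2
  obtain ⟨y₀, hy₀⟩ : ∃ y₀, y₀ = Xi w z := ⟨_, rfl⟩
  rw [← hy₀] at u3 u5 hσ0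
  obtain ⟨M, hM⟩ : ∃ M : ℝ, M = ‖fderiv ℝ σ y₀‖ + 1 := ⟨_, rfl⟩
  have hM0 : 0 ≤ M := by rw [hM]; positivity
  have ev1 : ∀ᶠ y in 𝓝 y₀, ContDiffAt ℝ 1 σ y :=
    (u3.of_le (by exact_mod_cast le_top)).eventually (by simp)
  have ev2 : ∀ᶠ y in 𝓝 y₀, ‖fderiv ℝ σ y‖ < M := by
    have h1 : ContinuousAt (fderiv ℝ σ) y₀ :=
      (u3.fderiv_right (m := 0) (by simp)).continuousAt
    exact h1.norm.eventually (gt_mem_nhds (by rw [hM]; linarith))
  have ev3 : ∀ᶠ y in 𝓝 y₀, σ y ∈ U ∩ U₀ :=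
    u3.continuousAt.eventually (by rw [hσ0]; exact inter_mem (u1.mem_nhds u2) hU₀)
  obtain ⟨r, hr, hB⟩ := Metric.eventually_nhds_iff_ball.1 (ev1.and (ev2.and (ev3.and u5)))
  have b1 : ∀ y ∈ ball y₀ r, ContDiffAt ℝ 1 σ y := fun y hy => (hB y hy).1
  have b2 : ∀ y ∈ ball y₀ r, ‖fderiv ℝ σ y‖ < M := fun y hy => (hB y hy).2.1
  have b3 : ∀ y ∈ ball y₀ r, σ y ∈ U ∩ U₀ := fun y hy => (hB y hy).2.2.1
  have b4 : ∀ y ∈ ball y₀ r, σ y ∈ Λ := fun y hy => (hB y hy).2.2.2.1
  have b5 : ∀ y ∈ ball y₀ r, Xi w (σ y) = y := fun y hy => (hB y hy).2.2.2.2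
  obtain ⟨f, hf⟩ : ∃ f : E n → ℝ, f = fun y => ⟪w, (σ y).1⟫ := ⟨_, rfl⟩
  obtain ⟨g, hg⟩ : ∃ g : E n → ℝ, g = fun y => ⟪w, (fderiv ℝ σ y w).1⟫ := ⟨_, rfl⟩
  have hfst : ∀ y ∈ ball y₀ r, (σ y).1 = y - ⟪w, y⟫ • w + f y • w := by
    intro y hy
    have h1 := b5 y hy
    have h2 := inner_xi hw (σ y)
    rw [h1] at h2
    rw [xi_apply, ← h2] at h1
    have h3 : (σ y).1 = ((σ y).1 - ⟪w, (σ y).1⟫ • w + ⟪w, y⟫ • w) - ⟪w, y⟫ • w
      + ⟪w, (σ y).1⟫ • w := by abel
    rw [h3, h1, hf]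
  have hfc : ContinuousOn f (ball y₀ r) := by
    intro y hy
    rw [hf]
    have h1 : ContinuousAt (fun y => (σ y).1) y := continuousAt_fst.comp (b1 y hy).continuousAt
    exact (continuousAt_const.inner h1).continuousWithinAt
  -- the difference quotients have a constant sign
  obtain ⟨D, hD⟩ : ∃ D : Set (E n × ℝ), D = {p | p.1 ∈ ball y₀ r ∧ p.1 + p.2 • w ∈ ball y₀ r ∧
    0 < p.2} := ⟨_, rfl⟩
  have hDc : Convex ℝ D := by
    rw [hD]
    rintro p ⟨p1, p2, p3⟩ q ⟨q1, q2, q3⟩ a b ha hb hab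
    refine ⟨convex_ball y₀ r p1 q1 ha hb hab, ?_, ?_⟩
    · have h1 := convex_ball y₀ r p2 q2 ha hb hab
      have h2 : (a • p + b • q).1 + (a • p + b • q).2 • w =
          a • (p.1 + p.2 • w) + b • (q.1 + q.2 • w) := by
        show (a • p.1 + b • q.1) + (a * p.2 + b * q.2) • w = _
        module
      rw [h2]
      exact h1
    · show 0 < a * p.2 + b * q.2
      rcases ha.eq_or_lt with h | h
      · rw [← h, zero_add] at hab
        rw [← h, hab]
        simpa using q3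
      · have := mul_pos h p3
        have := mul_nonneg hb q3.le
        linarith
  have hne : ∀ p ∈ D, f (p.1 + p.2 • w) - f p.1 ≠ 0 := by
    intro p hp h0
    rw [hD] at hp
    obtain ⟨p1, p2, p3⟩ := hp
    have h1 := hfst _ p1
    have h2 := hfst _ p2
    have h3 : f (p.1 + p.2 • w) = f p.1 := by linarith
    rw [h3, inner_add_right, inner_smul_right, hww, mul_one] at h2
    have h4 : (σ (p.1 + p.2 • w)).1 = (σ p.1).1 := by
      rw [h1, h2]
      module
    have h5 := hi ⟨b4 _ p2, (b3 _ p2).2⟩ ⟨b4 _ p1, (b3 _ p1).2⟩ h4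
    have h6 := b5 _ p2
    rw [h5, b5 _ p1] at h6
    have h7 : p.2 • w = 0 := by
      have := h6
      rw [left_eq_add] at this
      exact this
    rcases smul_eq_zero.1 h7 with h8 | h8
    · exact p3.ne' h8
    · exact hw0 h8
  have hcont : ContinuousOn (fun p : E n × ℝ => f (p.1 + p.2 • w) - f p.1) D := by
    refine ContinuousOn.sub (hfc.comp ?_ ?_) (hfc.comp continuous_fst.continuousOn ?_)
    · exact (continuous_fst.add (continuous_snd.smul continuous_const)).continuousOn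
    · intro p hp
      rw [hD] at hp
      exact hp.2.1
    · intro p hp
      rw [hD] at hp
      exact hp.1
  obtain ⟨ε, hε, hpos⟩ := sign_const hDc hcont hne
  -- the derivative
  have hder : ∀ y ∈ ball y₀ r, ∀ s : ℝ, y + s • w ∈ ball y₀ r →
      HasDerivAt (fun s : ℝ => f (y + s • w)) (g (y + s • w)) s := by
    intro y hy s hs
    have h1 : HasFDerivAt σ (fderiv ℝ σ (y + s • w)) (y + s • w) :=
      ((b1 _ hs).differentiableAt (by simp)).hasFDerivAt
    have h2 : HasDerivAt (fun s : ℝ => y + s • w) w s := by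
      have := ((hasDerivAt_id s).smul_const w).const_add y
      rwa [one_smul] at this
    have h3 := h1.comp_hasDerivAt s h2
    have h4 : HasDerivAt (fun s : ℝ => (σ (y + s • w)).1) (fderiv ℝ σ (y + s • w) w).1 s :=
      (hasFDerivAt_fst (𝕜 := ℝ) (E := E n) (F := E n)).comp_hasDerivAt s h3
    have h5 := (innerSL ℝ w).hasFDerivAt.comp_hasDerivAt s h4
    rw [hf, hg]
    exact h5
  have hg0 : ∀ y ∈ ball y₀ r, 0 ≤ ε * g y := by
    intro y hy
    have h0 : y + (0 : ℝ) • w ∈ ball y₀ r := by simpa using hy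
    have h1 := (hder y hy 0 h0).tendsto_slope_zero_right
    have h2 := h1.const_mul ε
    simp only [zero_smul, add_zero, zero_add] at h2
    refine ge_of_tendsto h2 ?_
    have h3 : ∀ᶠ s : ℝ in 𝓝 0, y + s • w ∈ ball y₀ r := by
      have h4 : Continuous fun s : ℝ => y + s • w :=
        continuous_const.add (continuous_id.smul continuous_const)
      exact h4.continuousAt.eventually (isOpen_ball.mem_nhds h0)
    filter_upwards [nhdsWithin_le_nhds h3, self_mem_nhdsWithin] with s hs hs0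
    have h5 := hpos (y, s) (by rw [hD]; exact ⟨hy, hs, hs0⟩)
    have h6 : (0 : ℝ) < s := hs0
    rw [smul_eq_mul]
    have h7 : ε * (s⁻¹ * (f (y + s • w) - f y)) = s⁻¹ * (ε * (f (y + s • w) - f y)) := by ring
    rw [h7]
    exact (mul_pos (inv_pos.2 h6) h5).le
  constructor
  · refine ⟨ε, hε, U ∩ Xi w ⁻¹' ball y₀ r, inter_mem (u1.mem_nhds u2) ?_, M, ?_⟩
    · refine (Xi w).continuous.continuousAt.preimage_mem_nhds ?_
      rw [← hy₀]
      exact ball_mem_nhds _ hr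
    · rintro x hx ⟨hxU, hxB⟩ a ha
      have hy : Xi w x ∈ ball y₀ r := hxB
      obtain ⟨y, hyd⟩ : ∃ y, y = Xi w x := ⟨_, rfl⟩
      rw [← hyd] at hy
      have hdiff : DifferentiableAt ℝ σ y := (b1 y hy).differentiableAt (by simp)
      have hdx : DifferentiableAt ℝ σ (Xi w x) := hyd ▸ hdiff
      have ha' := curveChart u1 u4 hxU hdx ha
      obtain ⟨τ, hτ⟩ : ∃ τ, τ = ⟪w, a.2⟫ := ⟨_, rfl⟩
      obtain ⟨η, hη⟩ : ∃ η, η = Xi w a - τ • w := ⟨_, rfl⟩
      have hΞa : Xi w a = η + τ • w := by rw [hη]; abel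
      obtain ⟨b, hb⟩ : ∃ b, b = fderiv ℝ σ y η := ⟨_, rfl⟩
      obtain ⟨e, he⟩ : ∃ e, e = fderiv ℝ σ y w := ⟨_, rfl⟩
      have hbT := tan_chart hΛ u1 u4 hx hxU hdx η
      have heT := tan_chart hΛ u1 u4 hx hxU hdx w
      rw [← hyd, ← hb] at hbT
      rw [← hyd, ← he] at heT
      have hab : a = b + τ • e := by
        rw [ha', hΞa, map_add, map_smul, ← hyd, ← hb, ← he]
      have hwη : ⟪w, η⟫ = 0 := by
        rw [hη, inner_sub_right, inner_xi hw, inner_smul_right, hww, ← hτ]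
        ring
      have hwb : ⟪w, b.2⟫ = 0 := by rw [← inner_xi hw, hbT.2, hwη]
      have hwe : ⟪w, e.2⟫ = 1 := by rw [← inner_xi hw, heT.2, hww]
      have hb1 : b.1 = η + ⟪w, b.1⟫ • w := by
        have h1 := hbT.2
        rw [xi_apply, hwb, zero_smul, add_zero] at h1
        rw [← h1]
        abel
      have he1 : e.1 = ⟪w, e.1⟫ • w := by
        have h1 := heT.2
        rw [xi_apply, hwe, one_smul] at h1
        have h2 : e.1 - ⟪w, e.1⟫ • w = 0 := by
          have := sub_eq_zero.2 h1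
          rw [add_sub_cancel_right] at this
          exact this
        exact sub_eq_zero.1 h2
      have hge : g y = ⟪w, e.1⟫ := by rw [hg, he]
      have hiso := Tan.iso hΛ hx hbT.1 heT.1
      have heb : ⟪e.1, b.2⟫ = 0 := by
        rw [he1, inner_smul_left, hwb, mul_zero]
      have hbe : ⟪b.1, e.2⟫ = 0 := by
        rw [real_inner_comm, ← hiso, real_inner_comm, heb]
      have hee : ⟪e.1, e.2⟫ = g y := by
        rw [he1, inner_smul_left, hwe, hge]
        simp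
      have hbb : ⟪b.1, b.2⟫ = ⟪η, b.2⟫ := by
        conv_lhs => rw [hb1]
        rw [inner_add_left, inner_smul_left, hwb, mul_zero, add_zero]
      have hmain : ⟪a.1, a.2⟫ = ⟪η, b.2⟫ + τ ^ 2 * g y := by
        have h1 : a.1 = b.1 + τ • e.1 := by rw [hab]; rfl
        have h2 : a.2 = b.2 + τ • e.2 := by rw [hab]; rfl
        rw [h1, h2, inner_add_left, inner_add_right, inner_add_right, inner_smul_left,
          inner_smul_left, inner_smul_right, inner_smul_right, heb, hbe, hee, hbb]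
        simp only [RCLike.conj_to_real]
        ring
      have hηa : η = a.1 - ⟪w, a.1⟫ • w := by
        rw [hη, xi_apply, hτ]
        abel
      have hηn : ‖η‖ ^ 2 ≤ ‖a.1‖ ^ 2 := by
        have hcm : ⟪a.1, w⟫ = ⟪w, a.1⟫ := real_inner_comm _ _
        rw [hηa, ← real_inner_self_eq_norm_sq, ← real_inner_self_eq_norm_sq, inner_sub_left,
          inner_sub_right, inner_sub_right, inner_smul_left, inner_smul_left, inner_smul_right,
          inner_smul_right, hww, hcm]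
        simp only [RCLike.conj_to_real]
        nlinarith [sq_nonneg (⟪w, a.1⟫ : ℝ)]
      have hbn : ‖b.2‖ ≤ M * ‖η‖ := by
        refine (norm_snd_le b).trans ?_
        rw [hb]
        exact ((fderiv ℝ σ y).le_opNorm η).trans
          (mul_le_mul_of_nonneg_right (b2 y hy).le (norm_nonneg _))
      have hib : |⟪η, b.2⟫| ≤ M * ‖η‖ ^ 2 := by
        refine (abs_real_inner_le_norm _ _).trans ?_
        have := mul_le_mul_of_nonneg_left hbn (norm_nonneg η)
        calc ‖η‖ * ‖b.2‖ ≤ ‖η‖ * (M * ‖η‖) := this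
          _ = _ := by ring
      have hεb : -(M * ‖η‖ ^ 2) ≤ ε * ⟪η, b.2⟫ := by
        rcases hε with h | h
        · rw [h, one_mul]
          exact (abs_le.1 hib).1
        · rw [h]
          linarith [(abs_le.1 hib).2]
      rw [hmain]
      have h1 := hg0 y hy
      have h2 := mul_le_mul_of_nonneg_left hηn hM0
      have h3 : 0 ≤ τ ^ 2 * (ε * g y) := mul_nonneg (sq_nonneg _) h1
      have h4 : ε * (⟪η, b.2⟫ + τ ^ 2 * g y) = ε * ⟪η, b.2⟫ + τ ^ 2 * (ε * g y) := by ring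
      rw [h4]
      linarith
  · intro N hN
    have h1 : ∀ᶠ y in 𝓝 y₀, σ y ∈ N :=
      u3.continuousAt.eventually (by rw [hσ0]; exact hN)
    obtain ⟨r', hr', hB'⟩ := Metric.eventually_nhds_iff_ball.1 h1
    obtain ⟨s₀, hs₀⟩ : ∃ s₀, s₀ = min r r' / 2 := ⟨_, rfl⟩
    have hmin : 0 < min r r' := lt_min hr hr'
    have hs0 : 0 < s₀ := by rw [hs₀]; linarith
    have hmem : ∀ s : ℝ, 0 ≤ s → s ≤ s₀ → y₀ + s • w ∈ ball y₀ r ∧ y₀ + s • w ∈ ball y₀ r' := by
      intro s h2 h3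
      have h4 : dist (y₀ + s • w) y₀ = s := by
        rw [dist_eq_norm, add_sub_cancel_left, norm_smul, hw, mul_one, Real.norm_of_nonneg h2]
      have h5 : s < min r r' := by
        rw [hs₀] at h3
        linarith
      constructor
      · rw [mem_ball, h4]
        exact h5.trans_le (min_le_left _ _)
      · rw [mem_ball, h4]
        exact h5.trans_le (min_le_right _ _)
    have hy0 : y₀ ∈ ball y₀ r := mem_ball_self hr
    obtain ⟨c, hc, hc'⟩ := exists_hasDerivAt_eq_slope (fun s : ℝ => f (y₀ + s • w))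
      (fun s : ℝ => g (y₀ + s • w)) hs0 (fun s hs =>
        (hder y₀ hy0 s (hmem s hs.1 hs.2).1).continuousAt.continuousWithinAt)
      (fun s hs => hder y₀ hy0 s (hmem s hs.1.le hs.2.le).1)
    have hgc : g (y₀ + c • w) ≠ 0 := by
      intro h0
      rw [h0] at hc'
      have h2 := hne (y₀, s₀) (by rw [hD]; exact ⟨hy0, (hmem s₀ hs0.le le_rfl).1, hs0⟩)
      apply h2
      have h3 : f (y₀ + s₀ • w) - f (y₀ + (0 : ℝ) • w) = 0 := by
        have h4 := hc'.symm
        rw [div_eq_zero_iff] at h4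
        rcases h4 with h4 | h4
        · exact h4
        · exact absurd h4 (by linarith)
      simpa using h3
    obtain ⟨m1, m2⟩ := hmem c hc.1.le hc.2.le
    obtain ⟨y, hy⟩ : ∃ y, y = y₀ + c • w := ⟨_, rfl⟩
    rw [← hy] at m1 m2 hgc
    refine ⟨σ y, b4 y m1, hB' y m2, ?_⟩
    intro a ha ha1
    have hdx : DifferentiableAt ℝ σ (Xi w (σ y)) := by
      rw [b5 y m1]
      exact (b1 y m1).differentiableAt (by simp)
    have h2 := curveChart u1 u4 (b3 y m1).1 hdx ha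
    have h3 : Xi w a = ⟪w, a.2⟫ • w := by
      rw [xi_apply, ha1]
      simp
    have heT := tan_chart hΛ u1 u4 (b4 y m1) (b3 y m1).1 hdx w
    rw [b5 y m1] at h2 heT
    rw [h3, map_smul] at h2
    have he1 : (fderiv ℝ σ y w).1 = g y • w := by
      have h4 := heT.2
      have h5 : ⟪w, (fderiv ℝ σ y w).2⟫ = 1 := by rw [← inner_xi hw, h4, hww]
      rw [xi_apply, h5, one_smul] at h4
      have h6 : (fderiv ℝ σ y w).1 - ⟪w, (fderiv ℝ σ y w).1⟫ • w = 0 := by
        have := sub_eq_zero.2 h4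
        rw [add_sub_cancel_right] at this
        exact this
      rw [hg]
      exact sub_eq_zero.1 h6
    have h7 : (⟪w, a.2⟫ * g y) • w = 0 := by
      rw [mul_smul, ← he1]
      have h8 := congrArg Prod.fst h2
      rw [ha1] at h8
      exact h8.symm
    rcases smul_eq_zero.1 h7 with h8 | h8
    · rcases mul_eq_zero.1 h8 with h9 | h9
      · rw [h2, h9, zero_smul]
      · exact absurd h9 hgc
    · exact absurd h8 hw0

end Pool.Agent.Q131.EL
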