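import Pool.Agent.Y522.ML.Var

/-!
# Exact Lagrangian submanifolds of the cotangent bundle of the torus which are transverse to the
fibres
-/

set_option autoImplicit false

open Set Filter Topology Metric Function
open scoped ContDiff RealInnerProductSpace

noncomputable section

namespace Pool.Agent.Q131.EL

open Pool.Agent.Y522.ML

variable {n : ℕ}

/-- velocities of smooth curves in `Λ` -/
def Tan (Λ : Set (E n × E n)) (z a : E n × E n) : Prop :=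
  ∃ γ : ℝ → E n × E n, ContDiffAt ℝ ∞ γ 0 ∧ (∀ᶠ s in 𝓝 (0 : ℝ), γ s ∈ Λ) ∧ γ 0 = z ∧
    deriv γ 0 = a

/-- `g` is a primitive of `p dq` on `Λ` -/
structure Exact (Λ : Set (E n × E n)) (g : E n × E n → ℝ) : Prop where
  cont : ContinuousOn g Λ
  per : ∀ z ∈ Λ, ∀ k : Fin n → ℤ, g (z.1 + latt k, z.2) = g z
  der : ∀ γ : ℝ → E n × E n, ContDiffAt ℝ ∞ γ 0 → (∀ᶠ s in 𝓝 (0 : ℝ), γ s ∈ Λ) →
    HasDerivAt (fun s => g (γ s)) ⟪(γ 0).2, (deriv γ 0).1⟫ 0

/-- images of parametrizations are in `Λ` -/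
theorem mem_of_open {Λ : Set (E n × E n)} {F : E n → E n × E n}
    (hU : ∀ V : Set (E n), IsOpen V → ∃ U : Set (E n × E n), IsOpen U ∧ F '' V = Λ ∩ U) (s : E n) :
    F s ∈ Λ := by
  obtain ⟨U, -, hU'⟩ := hU univ isOpen_univ
  have : F s ∈ F '' univ := mem_image_of_mem _ (mem_univ s)
  rw [hU'] at this
  exact this.1

theorem tan_of {Λ : Set (E n × E n)} {F : E n → E n × E n} (hF : ContDiff ℝ ∞ F)
    (hFΛ : ∀ s, F s ∈ Λ) (s v : E n) : Tan Λ (F s) (fderiv ℝ F s v) := by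
  have h1 : ContDiff ℝ ∞ (fun r : ℝ => F (s + r • v)) :=
    hF.comp (contDiff_const.add (contDiff_id.smul contDiff_const))
  refine ⟨fun r => F (s + r • v), h1.contDiffAt, Eventually.of_forall fun r => hFΛ _, ?_, ?_⟩
  · simp
  · have h2 : HasDerivAt (fun r : ℝ => s + r • v) v 0 := by
      have := ((hasDerivAt_id (0 : ℝ)).smul_const v).const_add s
      rwa [one_smul] at this
    have h3 : HasFDerivAt F (fderiv ℝ F s) ((fun r : ℝ => s + r • v) 0) := by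
      simp only [zero_smul, add_zero]
      exact (hF.differentiable (by simp)).differentiableAt.hasFDerivAt
    exact (h3.comp_hasDerivAt (0 : ℝ) h2).deriv

/-- local structure at the points where the submanifold is transverse to the fibre -/
theorem loc {Λ : Set (E n × E n)} (hΛ : LagT n Λ) {z : E n × E n} (hz : z ∈ Λ)
    (ht : ∀ a, Tan Λ z a → a.1 = 0 → a = 0) :
    ∃ (U : Set (E n × E n)) (c : ℝ) (σ : E n → E n × E n), IsOpen U ∧ z ∈ U ∧ 0 < c ∧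
      (∀ w ∈ Λ, ∀ w' ∈ Λ, w ∈ U → w' ∈ U → c * ‖w - w'‖ ≤ ‖w.1 - w'.1‖) ∧
      ContDiffAt ℝ ∞ σ z.1 ∧ σ z.1 = z ∧ ∀ᶠ x in 𝓝 z.1, σ x ∈ Λ ∧ (σ x).1 = x := by
  obtain ⟨F, hF, hF0, -, hU, himm, -⟩ := hΛ.par z hz
  have hFΛ := mem_of_open hU
  obtain ⟨G, hGd⟩ : ∃ G : E n → E n, G = fun s => (F s).1 := ⟨_, rfl⟩
  have hG : ContDiff ℝ ∞ G := by
    rw [hGd]
    exact contDiff_fst.comp hF
  have hGF : ∀ s v, fderiv ℝ G s v = (fderiv ℝ F s v).1 := by
    intro s v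
    have h1 : HasFDerivAt F (fderiv ℝ F s) s :=
      (hF.differentiable (by simp)).differentiableAt.hasFDerivAt
    have h2 : HasFDerivAt G ((ContinuousLinearMap.fst ℝ (E n) (E n)).comp (fderiv ℝ F s)) s := by
      rw [hGd]
      exact hasFDerivAt_fst.comp s h1
    rw [h2.fderiv]
    rfl
  have hinj : Injective (fderiv ℝ G 0 : E n →ₗ[ℝ] E n) := by
    rw [← LinearMap.ker_eq_bot, LinearMap.ker_eq_bot']
    intro v hv
    have hv' : fderiv ℝ G 0 v = 0 := hv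
    rw [hGF] at hv'
    have h1 := tan_of hF hFΛ 0 v
    rw [hF0] at h1
    exact himm 0 v (ht _ h1 hv')
  let e : E n ≃L[ℝ] E n := (LinearEquiv.ofInjectiveEndo _ hinj).toContinuousLinearEquiv
  have he0 : (e : E n →L[ℝ] E n) = fderiv ℝ G 0 := by
    ext1 v
    rfl
  have he : HasFDerivAt G (e : E n →L[ℝ] E n) 0 := by
    rw [he0]
    exact ((hG.differentiable (by simp)).differentiableAt (x := (0 : E n))).hasFDerivAt
  have hGa : ContDiffAt ℝ ∞ G 0 := hG.contDiffAt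
  have hn : (∞ : WithTop ℕ∞) ≠ 0 := by simp
  have hG0 : G 0 = z.1 := by rw [hGd]; simp only [hF0]
  -- constants
  obtain ⟨N, hN0, hN⟩ : ∃ N : ℝ, 0 < N ∧ ∀ v : E n, ‖v‖ ≤ N * ‖e v‖ := by
    refine ⟨‖(e.symm : E n →L[ℝ] E n)‖ + 1, by positivity, fun v => ?_⟩
    have h1 := (e.symm : E n →L[ℝ] E n).le_opNorm (e v)
    have h2 : (e.symm : E n →L[ℝ] E n) (e v) = v := e.symm_apply_apply v
    rw [h2] at h1
    nlinarith [norm_nonneg (e v)]
  have hsG : HasStrictFDerivAt G (e : E n →L[ℝ] E n) 0 := hGa.hasStrictFDerivAt' he hn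
  obtain ⟨s₁, hs₁, h₁⟩ := hsG.approximates_deriv_on_nhds (c := (1 / (2 * N)).toNNReal)
    (Or.inr (Real.toNNReal_pos.2 (by positivity)))
  obtain ⟨L, s₂, hs₂, h₂⟩ := (hF.contDiffAt (x := (0 : E n))).hasStrictFDerivAt hn
    |>.exists_lipschitzOnWith
  obtain ⟨V, hVs, hVo, hV0⟩ := _root_.mem_nhds_iff.1 (inter_mem hs₁ hs₂)
  obtain ⟨U, hUo, hUV⟩ := hU V hVo
  refine ⟨U, 1 / (2 * N * (L + 1)), fun x => F (hGa.localInverse he hn x), hUo, ?_, by positivity,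
    ?_, ?_, ?_, ?_⟩
  · have h3 : F 0 ∈ F '' V := mem_image_of_mem _ hV0
    rw [hUV, hF0] at h3
    exact h3.2
  · intro w hw w' hw' hwU hwU'
    have h3 : w ∈ F '' V := by rw [hUV]; exact ⟨hw, hwU⟩
    have h4 : w' ∈ F '' V := by rw [hUV]; exact ⟨hw', hwU'⟩
    obtain ⟨x, hx, rfl⟩ := h3
    obtain ⟨y, hy, rfl⟩ := h4
    have h5 := h₁ x (hVs hx).1 y (hVs hy).1
    rw [Real.coe_toNNReal _ (by positivity)] at h5
    have h6 := h₂.norm_sub_le (hVs hx).2 (hVs hy).2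
    have h7 := hN (x - y)
    have h8 : ‖e (x - y)‖ ≤ ‖G x - G y‖ + 1 / (2 * N) * ‖x - y‖ := by
      have h9 : e (x - y) = (G x - G y) - (G x - G y - e (x - y)) := by abel
      rw [h9]
      exact (norm_sub_le _ _).trans (add_le_add le_rfl h5)
    have h10 : N * (1 / (2 * N) * ‖x - y‖) = 1 / 2 * ‖x - y‖ := by field_simp
    have h11 : ‖x - y‖ ≤ 2 * N * ‖G x - G y‖ := by
      have h12 := mul_le_mul_of_nonneg_left h8 hN0.le
      rw [mul_add, h10] at h12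
      linarith
    have h13 : (F x).1 - (F y).1 = G x - G y := by rw [hGd]
    rw [h13, div_mul_eq_mul_div, one_mul, div_le_iff₀ (by positivity)]
    have hL : (0 : ℝ) ≤ L := L.2
    calc ‖F x - F y‖ ≤ L * ‖x - y‖ := h6
      _ ≤ (L + 1) * (2 * N * ‖G x - G y‖) :=
        mul_le_mul (by linarith) h11 (norm_nonneg _) (by positivity)
      _ = _ := by ring
  · rw [← hG0]
    exact hF.contDiffAt.comp _ (hGa.to_localInverse he hn)
  · rw [← hG0]
    show F (hGa.localInverse he hn (G 0)) = z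
    rw [hGa.localInverse_apply_image he hn, hF0]
  · rw [← hG0]
    have h3 := (hGa.hasStrictFDerivAt' he hn).eventually_right_inverse
    filter_upwards [h3] with x hx
    have h4 : G (hGa.localInverse he hn x) = x := hx
    exact ⟨hFΛ _, (congrFun hGd _).symm.trans h4⟩

/-- the unit cube -/
def cube (n : ℕ) : Set (E n) :=
  (fun x : Fin n → ℝ => (WithLp.toLp 2 x : E n)) '' (Set.pi univ fun _ => Icc (0 : ℝ) 1)

theorem cube_compact : IsCompact (cube n) :=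
  (isCompact_univ_pi fun _ => isCompact_Icc).image (PiLp.continuous_toLp 2 _)

theorem exists_cube (x : E n) : ∃ k : Fin n → ℤ, x + latt k ∈ cube n := by
  refine ⟨fun i => -⌊x i⌋, fun i => Int.fract (x i), fun i _ => ?_, ?_⟩
  · exact ⟨Int.fract_nonneg _, (Int.fract_lt_one _).le⟩
  · ext i
    show Int.fract (x i) = x i + ((-⌊x i⌋ : ℤ) : ℝ)
    rw [Int.cast_neg, ← sub_eq_add_neg, Int.self_sub_floor]

/-- an exact Lagrangian submanifold which is transverse to the fibres meets every fibre at most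
once -/
theorem inj {Λ : Set (E n × E n)} (hΛ : LagT n Λ) {g : E n × E n → ℝ} (hg : Exact Λ g)
    (ht : ∀ z ∈ Λ, ∀ a, Tan Λ z a → a.1 = 0 → a = 0) :
    ∀ z ∈ Λ, ∀ z' ∈ Λ, z.1 = z'.1 → z = z' := by
  by_contra hcon
  push Not at hcon
  obtain ⟨y, hy, y', hy', hyy, hne⟩ := hcon
  obtain ⟨R, hR⟩ := hΛ.bdd
  obtain ⟨P, hP⟩ : ∃ P : Set ((E n × E n) × (E n × E n)), P = {w | w.1 ∈ Λ ∧ w.2 ∈ Λ ∧
    w.1.1 = w.2.1 ∧ w.1 ≠ w.2 ∧ w.1.1 ∈ cube n} := ⟨_, rfl⟩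
  have hPsub : P ⊆ (cube n ×ˢ closedBall 0 R) ×ˢ (cube n ×ˢ closedBall 0 R) := by
    rw [hP]
    rintro w ⟨h1, h2, h3, -, h4⟩
    refine ⟨⟨h4, ?_⟩, ⟨by rw [← h3]; exact h4, ?_⟩⟩
    · rw [mem_closedBall_zero_iff]
      exact hR _ h1
    · rw [mem_closedBall_zero_iff]
      exact hR _ h2
  have hPcl : IsClosed P := by
    rw [← isSeqClosed_iff_isClosed]
    intro w w₀ hw hlim
    rw [hP] at hw ⊢
    have l1 : Tendsto (fun i => (w i).1) atTop (𝓝 w₀.1) := (continuous_fst.tendsto _).comp hlim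
    have l2 : Tendsto (fun i => (w i).2) atTop (𝓝 w₀.2) := (continuous_snd.tendsto _).comp hlim
    have m1 : w₀.1 ∈ Λ := hΛ.closed.mem_of_tendsto l1 (Eventually.of_forall fun i => (hw i).1)
    have m2 : w₀.2 ∈ Λ := hΛ.closed.mem_of_tendsto l2 (Eventually.of_forall fun i => (hw i).2.1)
    have l3 : Tendsto (fun i => (w i).1.1) atTop (𝓝 w₀.1.1) := (continuous_fst.tendsto _).comp l1
    have l4 : Tendsto (fun i => (w i).2.1) atTop (𝓝 w₀.2.1) := (continuous_fst.tendsto _).comp l2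
    have l5 : w₀.1.1 = w₀.2.1 := by
      refine tendsto_nhds_unique l3 ?_
      have h3 : (fun i => (w i).1.1) = fun i => (w i).2.1 := funext fun i => (hw i).2.2.1
      rw [h3]
      exact l4
    refine ⟨m1, m2, l5, fun he => ?_, cube_compact.isClosed.mem_of_tendsto l3
      (Eventually.of_forall fun i => (hw i).2.2.2.2)⟩
    obtain ⟨U, c, -, hU, hzU, hc, h6, -, -, -⟩ := loc hΛ m1 (ht _ m1)
    have h7 := l1.eventually (hU.mem_nhds hzU)
    have h8 := l2.eventually (hU.mem_nhds (he ▸ hzU))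
    obtain ⟨i, h9, h10⟩ := (h7.and h8).exists
    have h11 := h6 _ (hw i).1 _ (hw i).2.1 h9 h10
    rw [(hw i).2.2.1, sub_self, norm_zero] at h11
    have h12 : ‖(w i).1 - (w i).2‖ ≤ 0 := by
      by_contra hcon
      push Not at hcon
      have := mul_pos hc hcon
      linarith
    exact (hw i).2.2.2.1 (sub_eq_zero.1 (norm_le_zero_iff.1 h12))
  have hPc : IsCompact P := by
    have h1 : IsCompact (cube n ×ˢ closedBall (0 : E n) R) :=
      cube_compact.prod (isCompact_closedBall _ _)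
    exact (h1.prod h1).of_isClosed_subset hPcl hPsub
  -- translation into the cube
  have htr : ∀ z ∈ Λ, ∀ z' ∈ Λ, z.1 = z'.1 → z ≠ z' → ∃ w ∈ P, g w.1 - g w.2 = g z - g z' := by
    intro z hz z' hz' he hne
    obtain ⟨k, hk⟩ := exists_cube z.1
    refine ⟨((z.1 + latt k, z.2), (z'.1 + latt k, z'.2)), ?_, ?_⟩
    · rw [hP]
      refine ⟨hΛ.per z hz k, hΛ.per z' hz' k, by rw [he], fun h1 => hne ?_, hk⟩
      refine Prod.ext he ?_
      have h2 : (z.1 + latt k, z.2) = (z'.1 + latt k, z'.2) := h1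
      exact (Prod.ext_iff.1 h2).2
    · show g (z.1 + latt k, z.2) - g (z'.1 + latt k, z'.2) = _
      rw [hg.per z hz, hg.per z' hz']
  obtain ⟨w₁, hw₁, -⟩ := htr y hy y' hy' hyy hne
  have hcont : ContinuousOn (fun w : (E n × E n) × (E n × E n) => g w.1 - g w.2) P := by
    refine (hg.cont.comp continuous_fst.continuousOn ?_).sub
      (hg.cont.comp continuous_snd.continuousOn ?_)
    · intro w hw
      rw [hP] at hw
      exact hw.1
    · intro w hw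
      rw [hP] at hw
      exact hw.2.1
  obtain ⟨w, hw, hmax⟩ := hPc.exists_isMaxOn ⟨w₁, hw₁⟩ hcont
  rw [hP] at hw
  obtain ⟨m1, m2, m3, m4, -⟩ := hw
  obtain ⟨v, hv⟩ : ∃ v : E n, v = w.1.2 - w.2.2 := ⟨_, rfl⟩
  obtain ⟨-, -, σ₁, -, -, -, -, a1, a2, a3⟩ := loc hΛ m1 (ht _ m1)
  obtain ⟨-, -, σ₂, -, -, -, -, b1, b2, b3⟩ := loc hΛ m2 (ht _ m2)
  have hline : ContDiffAt ℝ ∞ (fun r : ℝ => w.1.1 + r • v) 0 :=
    (contDiff_const.add (contDiff_id.smul contDiff_const)).contDiffAt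
  have hl0 : w.1.1 + (0 : ℝ) • v = w.1.1 := by simp
  have hlt : Tendsto (fun r : ℝ => w.1.1 + r • v) (𝓝 0) (𝓝 w.1.1) := by
    have := hline.continuousAt.tendsto
    rwa [hl0] at this
  have hld : HasDerivAt (fun r : ℝ => w.1.1 + r • v) v 0 := by
    have := ((hasDerivAt_id (0 : ℝ)).smul_const v).const_add w.1.1
    rwa [one_smul] at this
  -- the two curves
  have key : ∀ {z : E n × E n} {σ : E n → E n × E n}, z ∈ Λ → z.1 = w.1.1 → ContDiffAt ℝ ∞ σ z.1 →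
      σ z.1 = z → (∀ᶠ x in 𝓝 z.1, σ x ∈ Λ ∧ (σ x).1 = x) →
      HasDerivAt (fun r : ℝ => g (σ (w.1.1 + r • v))) ⟪z.2, v⟫ 0 ∧
      Tendsto (fun r : ℝ => σ (w.1.1 + r • v)) (𝓝 0) (𝓝 z) ∧
      ∀ᶠ r : ℝ in 𝓝 0, σ (w.1.1 + r • v) ∈ Λ ∧ (σ (w.1.1 + r • v)).1 = w.1.1 + r • v := by
    intro z σ hz hzw c1 c2 c3
    rw [hzw] at c1 c2 c3
    have d1 : ContDiffAt ℝ ∞ (fun r : ℝ => σ (w.1.1 + r • v)) 0 := by
      refine ContDiffAt.comp (g := σ) (f := fun r : ℝ => w.1.1 + r • v) 0 ?_ hline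
      rw [hl0]
      exact c1
    have d2 := hlt.eventually c3
    have d3 := hg.der _ d1 (d2.mono fun r hr => hr.1)
    have d4 : σ (w.1.1 + (0 : ℝ) • v) = z := by rw [zero_smul, add_zero, c2]
    have d5 : HasDerivAt (fun r : ℝ => σ (w.1.1 + r • v))
        (deriv (fun r : ℝ => σ (w.1.1 + r • v)) 0) 0 :=
      (d1.differentiableAt (by simp)).hasDerivAt
    have d6 : HasDerivAt (fun r : ℝ => (σ (w.1.1 + r • v)).1)
        (deriv (fun r : ℝ => σ (w.1.1 + r • v)) 0).1 0 :=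
      (hasFDerivAt_fst (𝕜 := ℝ) (E := E n) (F := E n)).comp_hasDerivAt (0 : ℝ) d5
    have d7 : (deriv (fun r : ℝ => σ (w.1.1 + r • v)) 0).1 = v := by
      refine d6.unique (hld.congr_of_eventuallyEq ?_)
      filter_upwards [d2] with r hr using hr.2
    rw [d7, d4] at d3
    refine ⟨d3, ?_, d2⟩
    have d8 := d1.continuousAt.tendsto
    simp only [d4] at d8
    exact d8
  obtain ⟨f1, f2, f3⟩ := key m1 rfl a1 a2 a3
  obtain ⟨e1, e2, e3⟩ := key m2 m3.symm b1 b2 b3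
  have hloc : IsLocalMax (fun r : ℝ => g (σ₁ (w.1.1 + r • v)) - g (σ₂ (w.1.1 + r • v))) 0 := by
    have h1 : ∀ᶠ r : ℝ in 𝓝 0, σ₁ (w.1.1 + r • v) ≠ σ₂ (w.1.1 + r • v) :=
      (f2.prodMk_nhds e2).eventually
        ((isOpen_ne_fun continuous_fst continuous_snd).mem_nhds (show w.1 ≠ w.2 from m4))
    filter_upwards [f3, e3, h1] with r g1 g2 g3
    obtain ⟨w', hw', he'⟩ := htr _ g1.1 _ g2.1 (by rw [g1.2, g2.2]) g3
    have h2 : g w'.1 - g w'.2 ≤ g w.1 - g w.2 := hmax hw'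
    rw [he'] at h2
    have h3 : σ₁ (w.1.1 + (0 : ℝ) • v) = w.1 := by rw [zero_smul, add_zero, a2]
    have h4 : σ₂ (w.1.1 + (0 : ℝ) • v) = w.2 := by rw [zero_smul, add_zero, m3, b2]
    show _ ≤ g (σ₁ (w.1.1 + (0 : ℝ) • v)) - g (σ₂ (w.1.1 + (0 : ℝ) • v))
    rw [h3, h4]
    exact h2
  have h1 := hloc.hasDerivAt_eq_zero (f1.sub e1)
  rw [← inner_sub_left, ← hv] at h1
  have h2 : v = 0 := (inner_self_eq_zero (𝕜 := ℝ)).1 h1
  rw [hv, sub_eq_zero] at h2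
  exact m4 (Prod.ext m3 h2)

/-- a uniform estimate -/
theorem anti {Λ : Set (E n × E n)} (hΛ : LagT n Λ)
    (ht : ∀ z ∈ Λ, ∀ a, Tan Λ z a → a.1 = 0 → a = 0)
    (hi : ∀ z ∈ Λ, ∀ z' ∈ Λ, z.1 = z'.1 → z = z') :
    ∃ c : ℝ, 0 < c ∧ ∀ z ∈ Λ, ∀ z' ∈ Λ, c * ‖z - z'‖ ≤ ‖z.1 - z'.1‖ := by
  by_contra hcon
  push Not at hcon
  obtain ⟨R, hR⟩ := hΛ.bdd
  have h1 : ∀ i : ℕ, ∃ z ∈ Λ, ∃ z' ∈ Λ, z.1 ∈ cube n ∧
      ‖z.1 - z'.1‖ < 1 / ((i : ℝ) + 1) * ‖z - z'‖ := by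
    intro i
    obtain ⟨z, hz, z', hz', h2⟩ := hcon (1 / ((i : ℝ) + 1)) (by positivity)
    obtain ⟨k, hk⟩ := exists_cube z.1
    refine ⟨_, hΛ.per z hz k, _, hΛ.per z' hz' k, hk, ?_⟩
    have h3 : ((z.1 + latt k, z.2) - (z'.1 + latt k, z'.2) : E n × E n) = z - z' := by
      refine Prod.ext ?_ rfl
      show z.1 + latt k - (z'.1 + latt k) = z.1 - z'.1
      abel
    rw [h3]
    show ‖z.1 + latt k - (z'.1 + latt k)‖ < _
    rwa [add_sub_add_right_eq_sub]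
  choose z hz z' hz' hzc hzz using h1
  have hb : ∀ i, ‖z i - z' i‖ ≤ 2 * R := by
    intro i
    have h2 : 1 / ((i : ℝ) + 1) ≤ 1 := by
      rw [div_le_one (by positivity)]
      linarith [(Nat.cast_nonneg i : (0 : ℝ) ≤ i)]
    have h3 : ‖(z i).1 - (z' i).1‖ < ‖z i - z' i‖ :=
      (hzz i).trans_le (mul_le_of_le_one_left (norm_nonneg _) h2)
    have h4 : ‖z i - z' i‖ = ‖(z i).2 - (z' i).2‖ := by
      have h5 : ‖z i - z' i‖ = max ‖(z i).1 - (z' i).1‖ ‖(z i).2 - (z' i).2‖ := Prod.norm_def _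
      rcases max_cases ‖(z i).1 - (z' i).1‖ ‖(z i).2 - (z' i).2‖ with h6 | h6
      · rw [h6.1] at h5
        exact absurd h5 h3.ne'
      · rw [h5, h6.1]
    rw [h4]
    refine (norm_sub_le _ _).trans ?_
    linarith [hR _ (hz i), hR _ (hz' i)]
  have hd : Tendsto (fun i => (z i).1 - (z' i).1) atTop (𝓝 0) := by
    rw [tendsto_zero_iff_norm_tendsto_zero]
    refine squeeze_zero (fun i => norm_nonneg _) (fun i => ((hzz i).le.trans
      (mul_le_mul_of_nonneg_left (hb i) (by positivity)))) ?_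
    have := (tendsto_one_div_add_atTop_nhds_zero_nat (𝕜 := ℝ)).mul_const (2 * R)
    rwa [zero_mul] at this
  have hK : IsCompact (cube n ×ˢ closedBall (0 : E n) R) :=
    cube_compact.prod (isCompact_closedBall _ _)
  obtain ⟨w, -, φ, hφ, hw⟩ := hK.tendsto_subseq (x := z) (fun i => ⟨hzc i, by
    rw [mem_closedBall_zero_iff]
    exact hR _ (hz i)⟩)
  obtain ⟨p, -, θ, hθ, hp⟩ := (isCompact_closedBall (0 : E n) R).tendsto_subseq
    (x := fun i => (z' (φ i)).2) (fun i => by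
    rw [mem_closedBall_zero_iff]
    exact hR _ (hz' _))
  have l1 : Tendsto (fun i => z (φ (θ i))) atTop (𝓝 w) := hw.comp hθ.tendsto_atTop
  have l2 : Tendsto (fun i => (z' (φ (θ i))).1) atTop (𝓝 w.1) := by
    have h2 : Tendsto (fun i => (z (φ (θ i))).1) atTop (𝓝 w.1) := (continuous_fst.tendsto _).comp l1
    have h3 := h2.sub (hd.comp (hφ.tendsto_atTop.comp hθ.tendsto_atTop))
    rw [sub_zero] at h3
    refine h3.congr fun i => ?_
    simp
  have l3 : Tendsto (fun i => z' (φ (θ i))) atTop (𝓝 (w.1, p)) := l2.prodMk_nhds hp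
  have m1 : w ∈ Λ := hΛ.closed.mem_of_tendsto l1 (Eventually.of_forall fun i => hz _)
  have m2 : (w.1, p) ∈ Λ := hΛ.closed.mem_of_tendsto l3 (Eventually.of_forall fun i => hz' _)
  have m3 : (w.1, p) = w := (hi _ m1 _ m2 rfl).symm
  rw [m3] at l3
  obtain ⟨U, c, -, hU, hzU, hc, h6, -, -, -⟩ := loc hΛ m1 (ht _ m1)
  have h7 := l1.eventually (hU.mem_nhds hzU)
  have h8 := l3.eventually (hU.mem_nhds hzU)
  have h9 : ∀ᶠ i : ℕ in atTop, 1 / ((φ (θ i) : ℝ) + 1) < c :=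
    ((tendsto_one_div_add_atTop_nhds_zero_nat (𝕜 := ℝ)).comp
      (hφ.tendsto_atTop.comp hθ.tendsto_atTop)).eventually (gt_mem_nhds hc)
  obtain ⟨i, ⟨h10, h11⟩, h12⟩ := ((h7.and h8).and h9).exists
  have h13 := h6 _ (hz (φ (θ i))) _ (hz' (φ (θ i))) h10 h11
  have h14 := hzz (φ (θ i))
  have h15 : 1 / ((φ (θ i) : ℝ) + 1) * ‖z (φ (θ i)) - z' (φ (θ i))‖ ≤
      c * ‖z (φ (θ i)) - z' (φ (θ i))‖ := mul_le_mul_of_nonneg_right h12.le (norm_nonneg _)
  linarith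

/-- an exact Lagrangian submanifold which is transverse to the fibres is the image of the zero
section -/
theorem graph {Λ : Set (E n × E n)} (hΛ : LagT n Λ) {g : E n × E n → ℝ} (hg : Exact Λ g)
    (ht : ∀ z ∈ Λ, ∀ a, Tan Λ z a → a.1 = 0 → a = 0) :
    ∃ ψ : E n × E n ≃ E n × E n, ContDiff ℝ ∞ ψ ∧ ContDiff ℝ ∞ ψ.symm ∧
      (∀ z k, ψ (z.1 + latt k, z.2) = ((ψ z).1 + latt k, (ψ z).2)) ∧
      (∀ z a b, om (fderiv ℝ ψ z a) (fderiv ℝ ψ z b) = om a b) ∧ ψ '' {z | z.2 = 0} = Λ := by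
  obtain ⟨c, hc, h⟩ := anti hΛ ht (inj hΛ hg ht)
  exact main hΛ (fun _ => 0) contDiff_const (fun p v w => by simp) hc (fun z hz z' hz' => by
    simp only [add_zero]
    exact h z hz z' hz')

end Pool.Agent.Q131.EL
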