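import Pool.Agent.Q131.EL.Push

/-!
# Exact Lagrangian submanifolds of the cotangent bundle of the torus with an infinitesimal one-sided
condition along the caustic: the main theorem
-/

set_option autoImplicit false

open Set Filter Topology Metric Function
open scoped ContDiff RealInnerProductSpace

noncomputable section

namespace Pool.Agent.Q131.EL

open Pool.Agent.Y522.ML

variable {n : ℕ}

/-- Lipschitz bound for the derivative of a periodic function which vanishes for large `p` -/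
theorem lipD {k₂ : E n × E n → E n} (s2 : ContDiff ℝ ∞ k₂)
    (p2 : ∀ w (k : Fin n → ℤ), k₂ (w.1 + latt k, w.2) = k₂ w) (R : ℝ)
    (h0 : ∀ w, R < ‖w.2‖ → k₂ w = 0) :
    ∃ L : ℝ, 0 ≤ L ∧ ∀ w w', ‖fderiv ℝ k₂ w - fderiv ℝ k₂ w'‖ ≤ L * ‖w - w'‖ := by
  have hD : ContDiff ℝ ∞ (fderiv ℝ k₂) := s2.fderiv_right (by simp)
  have hDD : Continuous (fderiv ℝ (fderiv ℝ k₂)) := hD.continuous_fderiv (by simp)
  have hopen : IsOpen {w : E n × E n | R < ‖w.2‖} :=
    isOpen_lt continuous_const (continuous_norm.comp continuous_snd)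
  have h1 : ∀ w, R < ‖w.2‖ → fderiv ℝ k₂ w = 0 := by
    intro w hw
    have h2 : k₂ =ᶠ[𝓝 w] fun _ => 0 := by
      filter_upwards [hopen.mem_nhds hw] with y hy using h0 y hy
    rw [h2.fderiv_eq]
    simp
  have h2 : ∀ w, R < ‖w.2‖ → fderiv ℝ (fderiv ℝ k₂) w = 0 := by
    intro w hw
    have h2 : fderiv ℝ k₂ =ᶠ[𝓝 w] fun _ => 0 := by
      filter_upwards [hopen.mem_nhds hw] with y hy using h1 y hy
    rw [h2.fderiv_eq]
    simp
  obtain ⟨L, hL, hb⟩ := bddper (n := n) (fderiv ℝ (fderiv ℝ k₂)) hDD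
    (fun w k => fderiv_per (fderiv_per p2) w k) R h2
  refine ⟨L, hL, fun w w' => ?_⟩
  exact Convex.norm_image_sub_le_of_norm_fderiv_le (𝕜 := ℝ) (s := univ) (fun x _ =>
    (hD.differentiable (by simp)).differentiableAt) (fun x _ => hb x)
    convex_univ (mem_univ _) (mem_univ _)

/-- the second derivative and the derivative of the gradient -/
theorem hpp_eq {K K' : E n × E n → ℝ} {k₁ k₂ : E n × E n → E n} (hK' : ContDiff ℝ ∞ K')
    (s2 : ContDiff ℝ ∞ k₂) (hk : ∀ w a, fderiv ℝ K' w a = ⟪k₁ w, a.1⟫ + ⟪k₂ w, a.2⟫)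
    {z : E n × E n} (he : K =ᶠ[𝓝 z] K') (u v : E n) :
    Hpp K z u v = ⟪fderiv ℝ k₂ z (0, u), v⟫ := by
  unfold Hpp
  have h1 : fderiv ℝ K =ᶠ[𝓝 z] fderiv ℝ K' := he.fderiv
  rw [h1.fderiv_eq]
  have hD : ContDiff ℝ ∞ (fderiv ℝ K') := hK'.fderiv_right (by simp)
  have h2 : HasFDerivAt (fderiv ℝ K') (fderiv ℝ (fderiv ℝ K') z) z :=
    (hD.differentiable (by simp)).differentiableAt.hasFDerivAt
  have h3 : HasFDerivAt (fun y => fderiv ℝ K' y (0, v)) ((fderiv ℝ (fderiv ℝ K') z).flip (0, v)) z := by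
    have := h2.clm_apply (hasFDerivAt_const ((0 : E n), v) z)
    simpa using this
  have d2 : HasFDerivAt k₂ (fderiv ℝ k₂ z) z :=
    (s2.differentiable (by simp)).differentiableAt.hasFDerivAt
  have h4 : HasFDerivAt (fun y => ⟪v, k₂ y⟫) ((innerSL ℝ v).comp (fderiv ℝ k₂ z)) z :=
    (innerSL ℝ v).hasFDerivAt.comp z d2
  have h5 : (fun y => fderiv ℝ K' y (0, v)) = fun y => ⟪v, k₂ y⟫ := by
    funext y
    rw [hk, real_inner_comm (k₂ y)]
    simp
  rw [h5] at h3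
  have h6 := congrArg (fun L : E n × E n →L[ℝ] ℝ => L (0, u)) (h3.unique h4)
  have h7 : fderiv ℝ (fderiv ℝ K') z (0, u) (0, v) = ⟪v, fderiv ℝ k₂ z (0, u)⟫ := h6
  rw [h7, real_inner_comm]

/-- curves in the image of `Λ` -/
theorem curve {Φ : E n × E n ≃ E n × E n} (P2 : ContDiff ℝ ∞ Φ.symm) {k₁ k₂ : E n × E n → E n}
    (s1 : ContDiff ℝ ∞ k₁) (s2 : ContDiff ℝ ∞ k₂) {t : ℝ}
    (P5 : ∀ z, (Φ z).1 = z.1 + t • k₂ ((Φ z).1, z.2) ∧ (Φ z).2 = z.2 - t • k₁ ((Φ z).1, z.2))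
    {γ' : ℝ → E n × E n} (h : ContDiffAt ℝ ∞ γ' 0) :
    ∃ γ : ℝ → E n × E n, (∀ s, γ s = Φ.symm (γ' s)) ∧ ContDiffAt ℝ ∞ γ 0 ∧
      HasDerivAt (fun s => ((γ' s).1, (γ s).2)) ((deriv γ' 0).1, (deriv γ 0).2) 0 ∧
      (deriv γ' 0).1 = (deriv γ 0).1 +
        t • fderiv ℝ k₂ ((γ' 0).1, (γ 0).2) ((deriv γ' 0).1, (deriv γ 0).2) ∧
      (deriv γ' 0).2 = (deriv γ 0).2 -
        t • fderiv ℝ k₁ ((γ' 0).1, (γ 0).2) ((deriv γ' 0).1, (deriv γ 0).2) := by
  obtain ⟨γ, hγ⟩ : ∃ γ : ℝ → E n × E n, ∀ s, γ s = Φ.symm (γ' s) := ⟨_, fun _ => rfl⟩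
  have hγs : ContDiffAt ℝ ∞ γ 0 := by
    have : γ = fun s => Φ.symm (γ' s) := funext hγ
    rw [this]
    exact P2.contDiffAt.comp 0 h
  have hΦ : ∀ s, Φ (γ s) = γ' s := by
    intro s
    rw [hγ, Equiv.apply_symm_apply]
  have d1 : HasDerivAt γ (deriv γ 0) 0 := (hγs.differentiableAt (by simp)).hasDerivAt
  have d2 : HasDerivAt γ' (deriv γ' 0) 0 := (h.differentiableAt (by simp)).hasDerivAt
  have d11 : HasDerivAt (fun s => (γ s).1) (deriv γ 0).1 0 :=
    (hasFDerivAt_fst (𝕜 := ℝ) (E := E n) (F := E n)).comp_hasDerivAt (0 : ℝ) d1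
  have d12 : HasDerivAt (fun s => (γ s).2) (deriv γ 0).2 0 :=
    (hasFDerivAt_snd (𝕜 := ℝ) (E := E n) (F := E n)).comp_hasDerivAt (0 : ℝ) d1
  have d21 : HasDerivAt (fun s => (γ' s).1) (deriv γ' 0).1 0 :=
    (hasFDerivAt_fst (𝕜 := ℝ) (E := E n) (F := E n)).comp_hasDerivAt (0 : ℝ) d2
  have d22 : HasDerivAt (fun s => (γ' s).2) (deriv γ' 0).2 0 :=
    (hasFDerivAt_snd (𝕜 := ℝ) (E := E n) (F := E n)).comp_hasDerivAt (0 : ℝ) d2
  have dw : HasDerivAt (fun s => ((γ' s).1, (γ s).2)) ((deriv γ' 0).1, (deriv γ 0).2) 0 :=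
    d21.prodMk d12
  have f2 : HasFDerivAt k₂ (fderiv ℝ k₂ ((γ' 0).1, (γ 0).2)) ((γ' 0).1, (γ 0).2) :=
    (s2.differentiable (by simp)).differentiableAt.hasFDerivAt
  have f1 : HasFDerivAt k₁ (fderiv ℝ k₁ ((γ' 0).1, (γ 0).2)) ((γ' 0).1, (γ 0).2) :=
    (s1.differentiable (by simp)).differentiableAt.hasFDerivAt
  refine ⟨γ, hγ, hγs, dw, ?_, ?_⟩
  · refine d21.unique ?_
    have h1 := d11.add ((f2.comp_hasDerivAt (0 : ℝ) dw).const_smul t)
    refine h1.congr_of_eventuallyEq (Eventually.of_forall fun s => ?_)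
    have h2 := (P5 (γ s)).1
    rw [hΦ] at h2
    exact h2
  · refine d22.unique ?_
    have h1 := d12.sub ((f1.comp_hasDerivAt (0 : ℝ) dw).const_smul t)
    refine h1.congr_of_eventuallyEq (Eventually.of_forall fun s => ?_)
    have h2 := (P5 (γ s)).2
    rw [hΦ] at h2
    exact h2

/-- exact Lagrangian submanifolds with a one-sided caustic are images of the zero section -/
theorem criterion {Λ : Set (E n × E n)} (hΛ : LagT n Λ) {g : E n × E n → ℝ} (hg : Exact Λ g)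
    (K : E n × E n → ℝ) (hK : ContDiff ℝ ∞ K)
    (hKp : ∀ w (k : Fin n → ℤ), K (w.1 + latt k, w.2) = K w) {b C : ℝ} (hb : 0 < b) (hC : 0 ≤ C)
    (hs : ∀ w ∈ Λ, Side Λ K b C w) :
    ∃ ψ : E n × E n ≃ E n × E n, ContDiff ℝ ∞ ψ ∧ ContDiff ℝ ∞ ψ.symm ∧
      (∀ z k, ψ (z.1 + latt k, z.2) = ((ψ z).1 + latt k, (ψ z).2)) ∧
      (∀ z a b, om (fderiv ℝ ψ z a) (fderiv ℝ ψ z b) = om a b) ∧ ψ '' {z | z.2 = 0} = Λ := by
  obtain ⟨R, hR⟩ := hΛ.bdd
  obtain ⟨z₀, hz₀⟩ := hΛ.nonempty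
  have hR0 : 0 ≤ R := (norm_nonneg _).trans (hR _ hz₀)
  let χ : ContDiffBump (0 : E n) := ⟨R + 1, R + 2, by linarith, by linarith⟩
  have hχs : ContDiff ℝ ∞ (χ : E n → ℝ) := χ.contDiff
  have hχ1 : ∀ p, ‖p‖ ≤ R + 1 → χ p = 1 := fun p hp =>
    χ.one_of_mem_closedBall (by rw [mem_closedBall_zero_iff]; exact hp)
  have hχ0 : ∀ p, R + 2 < ‖p‖ → χ p = 0 := fun p hp =>
    χ.zero_of_le_dist (by rw [dist_zero_right]; exact hp.le)
  obtain ⟨K', hKd⟩ : ∃ K' : E n × E n → ℝ, K' = fun w => χ w.2 * K w := ⟨_, rfl⟩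
  have hK' : ContDiff ℝ ∞ K' := by
    rw [hKd]
    exact (hχs.comp contDiff_snd).mul hK
  have hKz : ∀ w, R + 2 < ‖w.2‖ → K' w = 0 := fun w hw => by
    rw [hKd]
    simp only [hχ0 _ hw, zero_mul]
  have hKp' : ∀ w (k : Fin n → ℤ), K' (w.1 + latt k, w.2) = K' w := fun w k => by
    rw [hKd]
    simp only [hKp]
  obtain ⟨k₁, k₂, M, hM, s1, s2, hk, p1, p2, b1, b2, l1, l2⟩ := exists_grad K' hK' hKp' (R + 2) hKz
  have hopen : IsOpen {w : E n × E n | R + 2 < ‖w.2‖} :=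
    isOpen_lt continuous_const (continuous_norm.comp continuous_snd)
  have hk20 : ∀ w, R + 2 < ‖w.2‖ → k₂ w = 0 := by
    intro w hw
    have h2 : K' =ᶠ[𝓝 w] fun _ => 0 := by
      filter_upwards [hopen.mem_nhds hw] with y hy using hKz y hy
    have h3 : ∀ a : E n, ⟪k₂ w, a⟫ = 0 := by
      intro a
      have h4 := hk w (0, a)
      rw [h2.fderiv_eq] at h4
      simp only [inner_zero_right, zero_add] at h4
      rw [← h4]
      simp
    exact (inner_self_eq_zero (𝕜 := ℝ)).1 (h3 _)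
  obtain ⟨L, hL, hLip⟩ := lipD s2 p2 (R + 2) hk20
  have hKe : ∀ z ∈ Λ, K =ᶠ[𝓝 z] K' := by
    intro z hz
    have h1 : ∀ᶠ w : E n × E n in 𝓝 z, ‖w.2‖ < R + 1 :=
      ((continuous_norm.comp continuous_snd).continuousAt).eventually
        (gt_mem_nhds (lt_of_le_of_lt (hR z hz) (by linarith)))
    filter_upwards [h1] with w hw
    rw [hKd]
    simp only [hχ1 _ hw.le, one_mul]
  -- the time
  obtain ⟨T, hT⟩ : ∃ T : ℝ, T = 2 * M + 2 * C + 4 * (L * M) / b + 1 := ⟨_, rfl⟩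
  have hLM : 0 ≤ 4 * (L * M) / b := by positivity
  have hT0 : 0 < T := by rw [hT]; positivity
  obtain ⟨t, htd⟩ : ∃ t : ℝ, t = 1 / T := ⟨_, rfl⟩
  have ht : 0 < t := by rw [htd]; positivity
  have htT : t * T = 1 := by rw [htd]; field_simp
  have htM : t * M ≤ 1 / 2 := by
    have h1 : t * (2 * M) ≤ t * T := mul_le_mul_of_nonneg_left (by rw [hT]; linarith) ht.le
    linarith
  have htC : t * C ≤ 1 / 2 := by
    have h1 : t * (2 * C) ≤ t * T := mul_le_mul_of_nonneg_left (by rw [hT]; linarith) ht.le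
    linarith
  have htL : 4 * t * (L * M) < b := by
    have h1 : t * (4 * (L * M) / b) < t * T := mul_lt_mul_of_pos_left (by rw [hT]; linarith) ht
    rw [htT] at h1
    have h2 := mul_lt_mul_of_pos_right h1 hb
    have h3 : t * (4 * (L * M) / b) * b = 4 * t * (L * M) := by field_simp
    linarith
  obtain ⟨Φ, P1, P2, P3, P4, P5'⟩ := exists_gen K' hK' s1 s2 hk p1 p2 l1 l2 ht.le htM
  have P5 : ∀ z, (Φ z).1 = z.1 + t • k₂ ((Φ z).1, z.2) ∧
      (Φ z).2 = z.2 - t • k₁ ((Φ z).1, z.2) := by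
    intro z
    obtain ⟨w, w1, w2, w3⟩ := P5' z
    have h1 : ((Φ z).1, z.2) = w := by
      rw [w3]
      exact Prod.ext rfl w1.symm
    rw [h1]
    constructor
    · rw [w3]
      exact w2
    · rw [w3, ← w1]
  have P3' : ∀ z (k : Fin n → ℤ),
      Φ.symm (z.1 + latt k, z.2) = ((Φ.symm z).1 + latt k, (Φ.symm z).2) := by
    intro z k
    rw [Equiv.symm_apply_eq, P3]
    simp
  have hlag : LagT n (Φ '' Λ) := by
    refine push hΛ Φ P1 P2 P3 P4 ⟨R + t * M, fun z hz => ?_⟩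
    rw [(P5 z).2]
    refine (norm_sub_le _ _).trans (add_le_add (hR z hz) ?_)
    rw [norm_smul, Real.norm_of_nonneg ht.le]
    exact mul_le_mul_of_nonneg_left (b1 _) ht.le
  have hmem : ∀ y, y ∈ Φ '' Λ → Φ.symm y ∈ Λ := by
    rintro _ ⟨z, hz, rfl⟩
    rwa [Equiv.symm_apply_apply]
  -- transversality
  have htr : ∀ z ∈ Φ '' Λ, ∀ a, Tan (Φ '' Λ) z a → a.1 = 0 → a = 0 := by
    rintro z hz a ⟨γ', g1, g2, g3, g4⟩ ha
    obtain ⟨γ, c1, c2, -, c4, c5⟩ := curve P2 s1 s2 P5 g1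
    have hγΛ : ∀ᶠ s in 𝓝 (0 : ℝ), γ s ∈ Λ := by
      filter_upwards [g2] with s hs
      rw [c1]
      exact hmem _ hs
    have h0 : γ 0 ∈ Λ := hγΛ.self_of_nhds
    have hT : Tan Λ (γ 0) (deriv γ 0) := ⟨γ, c2, hγΛ, rfl, rfl⟩
    rw [g4, ha] at c4 c5
    obtain ⟨d, hd⟩ : ∃ d, d = (deriv γ 0).2 := ⟨_, rfl⟩
    obtain ⟨w, hw⟩ : ∃ w, w = ((γ' 0).1, (γ 0).2) := ⟨_, rfl⟩
    rw [← hd, ← hw] at c4 c5
    have e1 : (deriv γ 0).1 = -(t • fderiv ℝ k₂ w (0, d)) := by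
      rw [eq_neg_iff_add_eq_zero]
      exact c4.symm
    obtain ⟨i1, e, he, i2⟩ := hs _ h0 _ hT
    rw [← hd] at i1 i2
    rw [e1, norm_neg, hpp_eq hK' s2 hk (hKe _ h0)] at i1
    rw [e1, norm_neg, hpp_eq hK' s2 hk (hKe _ h0)] at i2
    have i3 : b * ‖d‖ ≤ ‖fderiv ℝ k₂ (γ 0) (0, d)‖ + C * ‖t • fderiv ℝ k₂ w (0, d)‖ := by
      refine i2.trans (add_le_add ?_ le_rfl)
      refine (real_inner_le_norm _ _).trans ?_
      exact mul_le_of_le_one_right (norm_nonneg _) he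
    have i4 : ‖fderiv ℝ k₂ w (0, d) - fderiv ℝ k₂ (γ 0) (0, d)‖ ≤ t * (L * M) * ‖d‖ := by
      have j1 : ‖w - γ 0‖ ≤ t * M := by
        have j2 : w - γ 0 = (t • k₂ w, 0) := by
          have j3 := (P5 (γ 0)).1
          have j4 : Φ (γ 0) = γ' 0 := by rw [c1, Equiv.apply_symm_apply]
          rw [j4, ← hw] at j3
          refine Prod.ext ?_ ?_
          · show w.1 - (γ 0).1 = t • k₂ w
            have j5 : w.1 = (γ' 0).1 := by rw [hw]
            rw [j5, j3]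
            abel
          · show w.2 - (γ 0).2 = 0
            rw [hw]
            simp
        rw [j2, Prod.norm_def]
        simp only [norm_zero]
        refine max_le ?_ (by positivity)
        rw [norm_smul, Real.norm_of_nonneg ht.le]
        exact mul_le_mul_of_nonneg_left (b2 _) ht.le
      have j6 : ‖((0 : E n), d)‖ = ‖d‖ := by
        rw [Prod.norm_def]
        simp
      have j7 := (fderiv ℝ k₂ w - fderiv ℝ k₂ (γ 0)).le_opNorm (0, d)
      rw [j6] at j7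
      have j8 : ‖fderiv ℝ k₂ w - fderiv ℝ k₂ (γ 0)‖ ≤ t * (L * M) := by
        refine (hLip _ _).trans ?_
        calc L * ‖w - γ 0‖ ≤ L * (t * M) := mul_le_mul_of_nonneg_left j1 hL
          _ = _ := by ring
      exact j7.trans (mul_le_mul_of_nonneg_right j8 (norm_nonneg _))
    have i5 : ‖d‖ = 0 := est ht htC htL (norm_nonneg _) i1 i3 i4
    have i6 : d = 0 := norm_eq_zero.1 i5
    have i7 : ((0 : E n), d) = 0 := by rw [i6]; rfl
    rw [i7, map_zero, smul_zero, i6, sub_zero] at c5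
    exact Prod.ext ha c5
  -- exactness
  have hex : Exact (Φ '' Λ) (fun y => g (Φ.symm y) +
      t * (⟪(Φ.symm y).2, k₂ (y.1, (Φ.symm y).2)⟫ - K' (y.1, (Φ.symm y).2))) := by
    have hw : Continuous fun y : E n × E n => (y.1, (Φ.symm y).2) :=
      continuous_fst.prodMk (continuous_snd.comp P2.continuous)
    refine ⟨?_, ?_, ?_⟩
    · refine ContinuousOn.add (hg.cont.comp P2.continuous.continuousOn hmem) ?_
      refine Continuous.continuousOn (continuous_const.mul (Continuous.sub ?_ ?_))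
      · exact (continuous_snd.comp P2.continuous).inner (s2.continuous.comp hw)
      · exact hK'.continuous.comp hw
    · intro y hy k
      simp only [P3']
      rw [hg.per _ (hmem y hy)]
      have h1 := p2 (y.1, (Φ.symm y).2) k
      have h2 := hKp' (y.1, (Φ.symm y).2) k
      simp only at h1 h2
      rw [h1, h2]
    · intro γ' g1 g2
      obtain ⟨γ, c1, c2, c3, c4, c5⟩ := curve P2 s1 s2 P5 g1
      have hγΛ : ∀ᶠ s in 𝓝 (0 : ℝ), γ s ∈ Λ := by
        filter_upwards [g2] with s hs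
        rw [c1]
        exact hmem _ hs
      have h1 := hg.der γ c2 hγΛ
      have d1 : HasDerivAt γ (deriv γ 0) 0 := (c2.differentiableAt (by simp)).hasDerivAt
      have d12 : HasDerivAt (fun s => (γ s).2) (deriv γ 0).2 0 :=
        (hasFDerivAt_snd (𝕜 := ℝ) (E := E n) (F := E n)).comp_hasDerivAt (0 : ℝ) d1
      have f2 : HasFDerivAt k₂ (fderiv ℝ k₂ ((γ' 0).1, (γ 0).2)) ((γ' 0).1, (γ 0).2) :=
        (s2.differentiable (by simp)).differentiableAt.hasFDerivAt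
      have fK : HasFDerivAt K' (fderiv ℝ K' ((γ' 0).1, (γ 0).2)) ((γ' 0).1, (γ 0).2) :=
        (hK'.differentiable (by simp)).differentiableAt.hasFDerivAt
      have h2 := f2.comp_hasDerivAt (0 : ℝ) c3
      have h3 := fK.comp_hasDerivAt (0 : ℝ) c3
      have h4 := (d12.inner ℝ h2).sub h3
      have h5 := h1.add (h4.const_mul t)
      refine (h5.congr_of_eventuallyEq (Eventually.of_forall fun s => ?_)).congr_deriv ?_
      · simp only [← c1]
        rfl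
      have h7 : (γ' 0).2 = (γ 0).2 - t • k₁ ((γ' 0).1, (γ 0).2) := by
        have j3 := (P5 (γ 0)).2
        have j4 : Φ (γ 0) = γ' 0 := by rw [c1, Equiv.apply_symm_apply]
        rw [j4] at j3
        exact j3
      rw [hk, h7, inner_sub_left, inner_smul_left]
      simp only [RCLike.conj_to_real, Function.comp]
      have h8 := congrArg (fun x : E n => ⟪(γ 0).2, x⟫) c4
      simp only [inner_add_right, inner_smul_right] at h8
      have h9 := real_inner_comm (k₂ ((γ' 0).1, (γ 0).2)) (deriv γ 0).2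
      rw [h8, h9]
      ring
  obtain ⟨ψ, q1, q2, q3, q4, q5⟩ := graph hlag hex htr
  have hdΦ : ∀ y a, fderiv ℝ Φ (Φ.symm y) (fderiv ℝ Φ.symm y a) = a := by
    intro y a
    have f1 : HasFDerivAt Φ (fderiv ℝ Φ (Φ.symm y)) (Φ.symm y) :=
      (P1.differentiable (by simp)).differentiableAt.hasFDerivAt
    have f3 : HasFDerivAt Φ.symm (fderiv ℝ Φ.symm y) y :=
      (P2.differentiable (by simp)).differentiableAt.hasFDerivAt
    have f5 : HasFDerivAt (fun y => Φ (Φ.symm y))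
        ((fderiv ℝ Φ (Φ.symm y)).comp (fderiv ℝ Φ.symm y)) y := f1.comp y f3
    have f6 : (fun y => Φ (Φ.symm y)) = id := by
      funext y
      simp
    rw [f6] at f5
    exact congrArg (fun L : E n × E n →L[ℝ] E n × E n => L a) (f5.unique (hasFDerivAt_id y))
  refine ⟨ψ.trans Φ.symm, P2.comp q1, q2.comp P1, fun z k => ?_, fun z a b => ?_, ?_⟩
  · show Φ.symm (ψ (z.1 + latt k, z.2)) = ((Φ.symm (ψ z)).1 + latt k, (Φ.symm (ψ z)).2)
    rw [q3, P3']
  · have f1 : HasFDerivAt ψ (fderiv ℝ ψ z) z :=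
      (q1.differentiable (by simp)).differentiableAt.hasFDerivAt
    have f2 : HasFDerivAt Φ.symm (fderiv ℝ Φ.symm (ψ z)) (ψ z) :=
      (P2.differentiable (by simp)).differentiableAt.hasFDerivAt
    have f3 : fderiv ℝ (ψ.trans Φ.symm) z = (fderiv ℝ Φ.symm (ψ z)).comp (fderiv ℝ ψ z) :=
      (f2.comp z f1).fderiv
    rw [f3]
    show om (fderiv ℝ Φ.symm (ψ z) (fderiv ℝ ψ z a)) (fderiv ℝ Φ.symm (ψ z) (fderiv ℝ ψ z b)) = _
    rw [← P4 (Φ.symm (ψ z)), hdΦ, hdΦ, q4]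
  · rw [Equiv.coe_trans, image_comp, q5, ← image_comp, Equiv.symm_comp_self, image_id]

end Pool.Agent.Q131.EL
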