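import Pool.Agent.Q131.EL.Graph

/-!
# Exact Lagrangian submanifolds of the cotangent bundle of the torus with an infinitesimal one-sided
condition along the caustic
-/

set_option autoImplicit false

open Set Filter Topology Metric Function
open scoped ContDiff RealInnerProductSpace

noncomputable section

namespace Pool.Agent.Q131.EL

open Pool.Agent.Y522.ML

variable {n : ℕ}

/-- the second derivative of `K` in the direction of the fibre -/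
def Hpp (K : E n × E n → ℝ) (z : E n × E n) (u v : E n) : ℝ :=
  fderiv ℝ (fderiv ℝ K) z (0, u) (0, v)

/-- the one-sided condition at the point `z` -/
def Side (Λ : Set (E n × E n)) (K : E n × E n → ℝ) (b C : ℝ) (z : E n × E n) : Prop :=
  ∀ a, Tan Λ z a → -C * ‖a.1‖ ^ 2 ≤ Hpp K z a.2 a.1 ∧
    ∃ e : E n, ‖e‖ ≤ 1 ∧ b * ‖a.2‖ ≤ Hpp K z a.2 e + C * ‖a.1‖

theorem Side.mono {Λ : Set (E n × E n)} {K : E n × E n → ℝ} {b C b' C' : ℝ} {z : E n × E n}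
    (h : Side Λ K b C z) (hb : b' ≤ b) (hC : C ≤ C') : Side Λ K b' C' z := by
  intro a ha
  obtain ⟨h1, e, he, h2⟩ := h a ha
  refine ⟨?_, e, he, ?_⟩
  · have h3 : 0 ≤ ‖a.1‖ ^ 2 := by positivity
    nlinarith
  · have h3 := mul_le_mul_of_nonneg_right hb (norm_nonneg a.2)
    have h4 := mul_le_mul_of_nonneg_right hC (norm_nonneg a.1)
    linarith

theorem fderiv_per {W : Type} [NormedAddCommGroup W] [NormedSpace ℝ W] {f : E n × E n → W}
    (hp : ∀ w (k : Fin n → ℤ), f (w.1 + latt k, w.2) = f w) (w : E n × E n) (k : Fin n → ℤ) :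
    fderiv ℝ f (w.1 + latt k, w.2) = fderiv ℝ f w := by
  have htr : ∀ y : E n × E n, y + (latt k, 0) = (y.1 + latt k, y.2) := by
    intro y
    refine Prod.ext rfl ?_
    simp
  have h1 : (fun y => f (y + (latt k, 0))) = f := by
    funext y
    rw [htr, hp]
  have h2 := fderiv_comp_add_right (𝕜 := ℝ) (f := f) (x := w) (latt k, 0)
  rw [h1, htr] at h2
  exact h2.symm

theorem Tan.trans {Λ : Set (E n × E n)} (hp : ∀ z ∈ Λ, ∀ k : Fin n → ℤ, (z.1 + latt k, z.2) ∈ Λ)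
    {z a : E n × E n} (h : Tan Λ z a) (k : Fin n → ℤ) : Tan Λ (z.1 + latt k, z.2) a := by
  obtain ⟨γ, h1, h2, h3, h4⟩ := h
  have he : ∀ s, ((γ s).1 + latt k, (γ s).2) = γ s + (latt k, 0) := by
    intro s
    refine Prod.ext rfl ?_
    simp
  refine ⟨fun s => γ s + (latt k, 0), h1.add contDiffAt_const, ?_, ?_, ?_⟩
  · filter_upwards [h2] with s hs
    rw [← he]
    exact hp _ hs k
  · show γ 0 + (latt k, 0) = _
    rw [← he, h3]
  · rw [deriv_add_const]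
    exact h4

/-- uniform constants -/
theorem uniform {Λ : Set (E n × E n)} (hΛ : LagT n Λ) {K : E n × E n → ℝ}
    (hKp : ∀ w (k : Fin n → ℤ), K (w.1 + latt k, w.2) = K w)
    (h : ∀ z ∈ Λ, ∃ U ∈ 𝓝 z, ∃ b C : ℝ, 0 < b ∧ ∀ w ∈ Λ, w ∈ U → Side Λ K b C w) :
    ∃ b C : ℝ, 0 < b ∧ 0 ≤ C ∧ ∀ w ∈ Λ, Side Λ K b C w := by
  obtain ⟨R, hR⟩ := hΛ.bdd
  have hc : IsCompact (Λ ∩ cube n ×ˢ closedBall (0 : E n) R) :=
    (cube_compact.prod (isCompact_closedBall _ _)).inter_left hΛ.closed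
  have h1 : ∃ b C : ℝ, 0 < b ∧ ∀ w ∈ Λ, w ∈ Λ ∩ cube n ×ˢ closedBall (0 : E n) R →
      Side Λ K b C w := by
    refine hc.induction_on (p := fun s => ∃ b C : ℝ, 0 < b ∧ ∀ w ∈ Λ, w ∈ s → Side Λ K b C w)
      ⟨1, 0, one_pos, fun w _ hw => hw.elim⟩ ?_ ?_ ?_
    · rintro s t hst ⟨b, C, hb, h2⟩
      exact ⟨b, C, hb, fun w hw hws => h2 w hw (hst hws)⟩
    · rintro s t ⟨b, C, hb, h2⟩ ⟨b', C', hb', h3⟩
      refine ⟨min b b', max C C', lt_min hb hb', fun w hw hws => ?_⟩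
      rcases hws with h4 | h4
      · exact (h2 w hw h4).mono (min_le_left _ _) (le_max_left _ _)
      · exact (h3 w hw h4).mono (min_le_right _ _) (le_max_right _ _)
    · intro z hz
      obtain ⟨U, hU, b, C, hb, h2⟩ := h z hz.1
      exact ⟨U, mem_nhdsWithin_of_mem_nhds hU, b, C, hb, h2⟩
  obtain ⟨b, C, hb, h2⟩ := h1
  refine ⟨b, max C 0, hb, le_max_right _ _, fun w hw => ?_⟩
  obtain ⟨k, hk⟩ := exists_cube w.1
  have h3 : Side Λ K b C (w.1 + latt k, w.2) := by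
    refine h2 _ (hΛ.per w hw k) ⟨hΛ.per w hw k, hk, ?_⟩
    rw [mem_closedBall_zero_iff]
    exact hR w hw
  refine Side.mono (b := b) (C := C) ?_ le_rfl (le_max_left _ _)
  intro a ha
  have h4 := h3 a (ha.trans hΛ.per k)
  have h5 : ∀ u v, Hpp K (w.1 + latt k, w.2) u v = Hpp K w u v := by
    intro u v
    unfold Hpp
    rw [fderiv_per (fderiv_per hKp)]
  simp only [h5] at h4
  exact h4

/-- the condition holds near the points where the submanifold is transverse to the fibre -/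
theorem side_of_transverse {Λ : Set (E n × E n)} (hΛ : LagT n Λ) {K : E n × E n → ℝ}
    (hK : ContDiff ℝ ∞ K) {z : E n × E n} (hz : z ∈ Λ)
    (ht : ∀ a, Tan Λ z a → a.1 = 0 → a = 0) :
    ∃ U ∈ 𝓝 z, ∃ b C : ℝ, 0 < b ∧ ∀ w ∈ Λ, w ∈ U → Side Λ K b C w := by
  obtain ⟨U, c, -, hUo, hzU, hc, h1, -, -, -⟩ := loc hΛ hz ht
  have hD : ContDiff ℝ ∞ (fderiv ℝ K) := hK.fderiv_right (by simp)
  have hDD : Continuous (fderiv ℝ (fderiv ℝ K)) := hD.continuous_fderiv (by simp)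
  obtain ⟨B, hB⟩ : ∃ B : ℝ, B = ‖fderiv ℝ (fderiv ℝ K) z‖ + 1 := ⟨_, rfl⟩
  have hB0 : 0 ≤ B := by rw [hB]; positivity
  have h2 : {w | ‖fderiv ℝ (fderiv ℝ K) w‖ < B} ∈ 𝓝 z := by
    have hn : Continuous (fun w : E n × E n => ‖fderiv ℝ (fderiv ℝ K) w‖) :=
      Continuous.norm (E := E n × E n →L[ℝ] E n × E n →L[ℝ] ℝ) hDD
    refine (hn.continuousAt (x := z)).eventually (gt_mem_nhds ?_)
    show ‖fderiv ℝ (fderiv ℝ K) z‖ < B
    rw [hB]
    linarith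
  refine ⟨U ∩ {w | ‖fderiv ℝ (fderiv ℝ K) w‖ < B}, inter_mem (hUo.mem_nhds hzU) h2, 1,
    max (1 / c) (B / c), one_pos, fun w hw hwU a ha => ?_⟩
  -- bound for tangent vectors
  have h3 : c * ‖a‖ ≤ ‖a.1‖ := by
    obtain ⟨γ, g1, g2, g3, g4⟩ := ha
    have d1 : HasDerivAt γ a 0 := by
      rw [← g4]
      exact (g1.differentiableAt (by simp)).hasDerivAt
    have d2 : HasDerivAt (fun s => (γ s).1) a.1 0 :=
      (hasFDerivAt_fst (𝕜 := ℝ) (E := E n) (F := E n)).comp_hasDerivAt (0 : ℝ) d1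
    have s1 := (hasDerivAt_iff_tendsto_slope.1 d1).norm.const_mul c
    have s2 := (hasDerivAt_iff_tendsto_slope.1 d2).norm
    refine le_of_tendsto_of_tendsto s1 s2 ?_
    have g5 : ∀ᶠ s in 𝓝 (0 : ℝ), γ s ∈ U :=
      g1.continuousAt.eventually (by rw [g3]; exact hUo.mem_nhds hwU.1)
    have g6 : ∀ᶠ s in 𝓝[≠] (0 : ℝ), γ s ∈ Λ ∧ γ s ∈ U :=
      nhdsWithin_le_nhds (g2.and g5)
    filter_upwards [g6] with s hs
    have g7 := h1 _ hs.1 _ hw hs.2 hwU.1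
    rw [slope_def_module, slope_def_module, norm_smul, norm_smul, g3]
    have g8 := mul_le_mul_of_nonneg_left g7 (norm_nonneg (s - 0)⁻¹)
    calc c * (‖(s - 0)⁻¹‖ * ‖γ s - w‖) = ‖(s - 0)⁻¹‖ * (c * ‖γ s - w‖) := by ring
      _ ≤ _ := g8
  have h4 : ‖a.2‖ ≤ 1 / c * ‖a.1‖ := by
    have h5 : ‖a.2‖ ≤ ‖a‖ := norm_snd_le a
    rw [div_mul_eq_mul_div, one_mul, le_div_iff₀ hc]
    nlinarith
  have h6 : |Hpp K w a.2 a.1| ≤ B * (‖a.2‖ * ‖a.1‖) := by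
    have h7 : ‖((0 : E n), a.2)‖ = ‖a.2‖ := by
      rw [Prod.norm_def]
      simp
    have h8 : ‖((0 : E n), a.1)‖ = ‖a.1‖ := by
      rw [Prod.norm_def]
      simp
    have h9 := (fderiv ℝ (fderiv ℝ K) w).le_opNorm₂ (0, a.2) (0, a.1)
    rw [h7, h8, Real.norm_eq_abs] at h9
    refine h9.trans ?_
    rw [mul_assoc]
    exact mul_le_mul_of_nonneg_right (le_of_lt hwU.2) (by positivity)
  have h10 : ‖a.2‖ * ‖a.1‖ ≤ 1 / c * ‖a.1‖ ^ 2 := by
    have := mul_le_mul_of_nonneg_right h4 (norm_nonneg a.1)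
    calc ‖a.2‖ * ‖a.1‖ ≤ 1 / c * ‖a.1‖ * ‖a.1‖ := this
      _ = _ := by ring
  refine ⟨?_, 0, by simp, ?_⟩
  · have h11 := (abs_le.1 h6).1
    have h12 : B * (‖a.2‖ * ‖a.1‖) ≤ B / c * ‖a.1‖ ^ 2 := by
      calc B * (‖a.2‖ * ‖a.1‖) ≤ B * (1 / c * ‖a.1‖ ^ 2) := mul_le_mul_of_nonneg_left h10 hB0
        _ = _ := by ring
    have h13 : B / c * ‖a.1‖ ^ 2 ≤ max (1 / c) (B / c) * ‖a.1‖ ^ 2 :=
      mul_le_mul_of_nonneg_right (le_max_right _ _) (by positivity)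
    linarith
  · have h11 : Hpp K w a.2 0 = 0 := by
      unfold Hpp
      have : ((0 : E n), (0 : E n)) = 0 := rfl
      rw [this, map_zero]
    rw [h11, zero_add, one_mul]
    exact h4.trans (mul_le_mul_of_nonneg_right (le_max_left _ _) (norm_nonneg _))

/-- the estimate -/
theorem est {A A' : E n} {t b C L M d : ℝ} (ht : 0 < t) (hC : t * C ≤ 1 / 2)
    (hL : 4 * t * (L * M) < b) (hd : 0 ≤ d)
    (h1 : -C * ‖t • A'‖ ^ 2 ≤ ⟪A, -(t • A')⟫) (h2 : b * d ≤ ‖A‖ + C * ‖t • A'‖)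
    (h3 : ‖A' - A‖ ≤ t * (L * M) * d) : d = 0 := by
  have e1 : ‖t • A'‖ = t * ‖A'‖ := by rw [norm_smul, Real.norm_of_nonneg ht.le]
  rw [e1, inner_neg_right, inner_smul_right] at h1
  rw [e1] at h2
  have e2 : ⟪A, A'⟫ = ‖A'‖ ^ 2 - ⟪A' - A, A'⟫ := by
    rw [inner_sub_left, real_inner_self_eq_norm_sq]
    ring
  have e3 : ⟪A' - A, A'⟫ ≤ ‖A' - A‖ * ‖A'‖ := real_inner_le_norm _ _
  have hA' : 0 ≤ ‖A'‖ := norm_nonneg _
  have e4 : ‖A'‖ ^ 2 - ‖A' - A‖ * ‖A'‖ ≤ C * t * ‖A'‖ ^ 2 := by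
    have e5 : t * ⟪A, A'⟫ ≤ t * (C * t * ‖A'‖ ^ 2) := by
      nlinarith
    have e6 := le_of_mul_le_mul_left e5 ht
    linarith
  have e7 : C * t * ‖A'‖ ^ 2 ≤ 1 / 2 * ‖A'‖ ^ 2 :=
    mul_le_mul_of_nonneg_right (by linarith) (by positivity)
  have e8 : ‖A'‖ ≤ 2 * ‖A' - A‖ := by
    by_contra hcon
    push Not at hcon
    have h0 : 0 < ‖A'‖ := lt_of_le_of_lt (by positivity) hcon
    nlinarith
  have e9 : ‖A‖ ≤ ‖A'‖ + ‖A' - A‖ := by
    have : A = A' - (A' - A) := by abel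
    conv_lhs => rw [this]
    exact norm_sub_le _ _
  have e10 : C * (t * ‖A'‖) ≤ 1 / 2 * ‖A'‖ := by nlinarith
  have e11 : b * d ≤ 4 * t * (L * M) * d := by nlinarith
  by_contra hne
  have hd' : 0 < d := lt_of_le_of_ne hd (Ne.symm hne)
  nlinarith [mul_lt_mul_of_pos_right hL hd']

end Pool.Agent.Q131.EL
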