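import Pool.Agent.Q131.EL.Fold
import Pool.Agent.Q131.EL.Main
import Mathlib.Analysis.Calculus.BumpFunction.Convolution
import Mathlib.Analysis.Calculus.BumpFunction.FiniteDimension
import Mathlib.MeasureTheory.Measure.Haar.Unique

/-!
# Exact Lagrangian submanifolds whose caustic is semidefinite with locally constant sign
-/

set_option autoImplicit false

open Set Filter Topology Metric Function MeasureTheory
open scoped ContDiff RealInnerProductSpace Convolution

noncomputable section

namespace Pool.Agent.Q131.EL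

open Pool.Agent.Y522.ML

variable {n : ℕ}

/-- smooth separation of periodic sets -/
theorem sep {A B : Set (E n × E n)} (hA : IsClosed A) (hB : IsClosed B) (hAB : Disjoint A B)
    (pA : ∀ z ∈ A, ∀ k : Fin n → ℤ, (z.1 + latt k, z.2) ∈ A)
    (pB : ∀ z ∈ B, ∀ k : Fin n → ℤ, (z.1 + latt k, z.2) ∈ B) {R : ℝ} (bA : ∀ z ∈ A, ‖z.2‖ ≤ R) :
    ∃ s : E n × E n → ℝ, ContDiff ℝ ∞ s ∧ (∀ z (k : Fin n → ℤ), s (z.1 + latt k, z.2) = s z) ∧
      (∀ z ∈ A, s =ᶠ[𝓝 z] fun _ => 1) ∧ ∀ z ∈ B, s =ᶠ[𝓝 z] fun _ => -1 := by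
  have hcA : IsCompact (A ∩ cube n ×ˢ closedBall (0 : E n) R) :=
    (cube_compact.prod (isCompact_closedBall _ _)).inter_left hA
  obtain ⟨δ, hδ, hd⟩ := (hAB.mono_left inter_subset_left).exists_thickenings hcA hB
  have htr : ∀ (z : E n × E n) (k : Fin n → ℤ), (z.1 + latt k, z.2) = z + (latt k, 0) := by
    intro z k
    refine Prod.ext rfl ?_
    simp
  have hdd : Disjoint (thickening δ A) (thickening δ B) := by
    rw [Set.disjoint_left]
    intro x hxA hxB
    obtain ⟨a, ha, hxa⟩ := mem_thickening_iff.1 hxA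
    obtain ⟨b, hb, hxb⟩ := mem_thickening_iff.1 hxB
    obtain ⟨k, hk⟩ := exists_cube a.1
    have h1 : x + (latt k, 0) ∈ thickening δ (A ∩ cube n ×ˢ closedBall (0 : E n) R) := by
      refine mem_thickening_iff.2 ⟨a + (latt k, 0), ⟨?_, ?_, ?_⟩, ?_⟩
      · rw [← htr]
        exact pA a ha k
      · exact hk
      · rw [mem_closedBall_zero_iff, ← htr]
        exact bA a ha
      · rwa [dist_add_right]
    have h2 : x + (latt k, 0) ∈ thickening δ B := by
      refine mem_thickening_iff.2 ⟨b + (latt k, 0), ?_, ?_⟩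
      · rw [← htr]
        exact pB b hb k
      · rwa [dist_add_right]
    exact Set.disjoint_left.1 hd h1 h2
  obtain ⟨W, hW⟩ : ∃ W, W = thickening (δ / 2) A := ⟨_, rfl⟩
  have hWo : IsOpen W := by rw [hW]; exact isOpen_thickening
  obtain ⟨u, hu⟩ : ∃ u : E n × E n → ℝ, u = W.indicator fun _ => (1 : ℝ) := ⟨_, rfl⟩
  obtain ⟨μ, hμ⟩ : ∃ μ : Measure (E n × E n), μ = volume := ⟨_, rfl⟩
  have _i1 : μ.IsAddHaarMeasure := by
    rw [hμ]
    show ((volume : Measure (E n)).prod (volume : Measure (E n))).IsAddHaarMeasure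
    infer_instance
  have _i2 : μ.IsNegInvariant := Measure.IsAddHaarMeasure.isNegInvariant_of_regular μ
  have hul : LocallyIntegrable u μ := by
    rw [hu]
    exact (locallyIntegrable_const (1 : ℝ)).indicator hWo.measurableSet
  let φ : ContDiffBump (0 : E n × E n) := ⟨δ / 8, δ / 4, by positivity, by linarith⟩
  have hφ : φ.rOut = δ / 4 := rfl
  obtain ⟨v, hv⟩ : ∃ v : E n × E n → ℝ,
    v = φ.normed μ ⋆[ContinuousLinearMap.lsmul ℝ ℝ, μ] u := ⟨_, rfl⟩
  have hvs : ContDiff ℝ ∞ v := by
    rw [hv]
    exact φ.hasCompactSupport_normed.contDiff_convolution_left _ φ.contDiff_normed hul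
  have hWper : ∀ (z : E n × E n) (k : Fin n → ℤ), z ∈ W → z + (latt k, 0) ∈ W := by
    intro z k hz
    rw [hW] at hz ⊢
    obtain ⟨a, ha, hza⟩ := mem_thickening_iff.1 hz
    refine mem_thickening_iff.2 ⟨a + (latt k, 0), ?_, ?_⟩
    · rw [← htr]
      exact pA a ha k
    · rwa [dist_add_right]
  have hneg : ∀ (z : E n × E n) (k : Fin n → ℤ), z + (latt k, 0) + (latt (-k), 0) = z := by
    intro z k
    refine Prod.ext ?_ (by simp)
    show z.1 + latt k + latt (-k) = z.1
    ext i
    show z.1 i + (k i : ℝ) + ((-k i : ℤ) : ℝ) = z.1 i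
    push_cast
    ring
  have huper : ∀ (z : E n × E n) (k : Fin n → ℤ), u (z + (latt k, 0)) = u z := by
    intro z k
    rw [hu]
    by_cases hz : z ∈ W
    · rw [indicator_of_mem hz, indicator_of_mem (hWper z k hz)]
    · have h1 : z + (latt k, 0) ∉ W := by
        intro h1
        have h2 := hWper _ (-k) h1
        rw [hneg] at h2
        exact hz h2
      rw [indicator_of_notMem hz, indicator_of_notMem h1]
  have hvper : ∀ (z : E n × E n) (k : Fin n → ℤ), v (z + (latt k, 0)) = v z := by
    intro z k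
    rw [hv]
    unfold convolution
    refine integral_congr_ae (Eventually.of_forall fun t => ?_)
    show (ContinuousLinearMap.lsmul ℝ ℝ) (φ.normed μ t) (u (z + (latt k, 0) - t)) = _
    have h1 : z + (latt k, 0) - t = z - t + (latt k, 0) := by abel
    rw [h1, huper]
  have hvA : ∀ z ∈ thickening (δ / 4) A, v z = 1 := by
    intro z hz
    obtain ⟨a, ha, hza⟩ := mem_thickening_iff.1 hz
    have h1 : ∀ x, dist x z < δ / 4 → u x = 1 := by
      intro x hx
      rw [hu, indicator_of_mem]
      rw [hW]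
      refine mem_thickening_iff.2 ⟨a, ha, ?_⟩
      have := dist_triangle x z a
      linarith
    have h2 : u z = 1 := h1 z (by rw [dist_self]; positivity)
    rw [hv, ContDiffBump.normed_convolution_eq_right, h2]
    intro x hx
    rw [mem_ball, hφ] at hx
    rw [h1 x hx, h2]
  have hvB : ∀ z ∈ thickening (δ / 4) B, v z = 0 := by
    intro z hz
    obtain ⟨b, hb, hzb⟩ := mem_thickening_iff.1 hz
    have h1 : ∀ x, dist x z < δ / 4 → u x = 0 := by
      intro x hx
      rw [hu, indicator_of_notMem]
      intro hxW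
      rw [hW] at hxW
      have h3 : x ∈ thickening δ A := thickening_mono (by linarith) _ hxW
      have h4 : x ∈ thickening δ B := by
        refine mem_thickening_iff.2 ⟨b, hb, ?_⟩
        have := dist_triangle x z b
        linarith
      exact Set.disjoint_left.1 hdd h3 h4
    have h2 : u z = 0 := h1 z (by rw [dist_self]; positivity)
    rw [hv, ContDiffBump.normed_convolution_eq_right, h2]
    intro x hx
    rw [mem_ball, hφ] at hx
    rw [h1 x hx, h2]
  refine ⟨fun z => 2 * v z - 1, (contDiff_const.mul hvs).sub contDiff_const, fun z k => ?_,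
    fun z hz => ?_, fun z hz => ?_⟩
  · simp only
    rw [htr, hvper]
  · filter_upwards [isOpen_thickening.mem_nhds (self_subset_thickening (show 0 < δ / 4 by positivity)
      A hz)] with x hx
    rw [hvA x hx]
    norm_num
  · filter_upwards [isOpen_thickening.mem_nhds (self_subset_thickening (show 0 < δ / 4 by positivity)
      B hz)] with x hx
    rw [hvB x hx]
    norm_num

end Pool.Agent.Q131.EL
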