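import Pool.Agent.Q131.EL.Sep

/-!
# Exact Lagrangian submanifolds whose caustic is semidefinite, with a sign depending on the point
-/

set_option autoImplicit false

open Set Filter Topology Metric Function
open scoped ContDiff RealInnerProductSpace

noncomputable section

namespace Pool.Agent.Q131.EL

open Pool.Agent.Y522.ML

variable {n : ℕ}

/-- transversality is an open condition -/
theorem trans_open {Λ : Set (E n × E n)} (hΛ : LagT n Λ) {z : E n × E n} (hz : z ∈ Λ)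
    (ht : Trans Λ z) : ∃ U ∈ 𝓝 z, ∀ w ∈ Λ, w ∈ U → Trans Λ w := by
  obtain ⟨U, hU, b, C, hb, h⟩ := side_of_transverse hΛ (K := fun _ => 0) contDiff_const hz ht
  refine ⟨U, hU, fun w hw hwU a ha ha1 => ?_⟩
  obtain ⟨-, e, -, h2⟩ := h w hw hwU a ha
  have h3 : Hpp (fun _ : E n × E n => (0 : ℝ)) w a.2 e = 0 := by
    unfold Hpp
    simp
  rw [h3, ha1, norm_zero, mul_zero, add_zero] at h2
  have h4 : ‖a.2‖ = 0 := by
    have h5 := norm_nonneg a.2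
    by_contra hne
    have h6 : 0 < ‖a.2‖ := lt_of_le_of_ne h5 (Ne.symm hne)
    have := mul_pos hb h6
    linarith
  exact Prod.ext ha1 (norm_eq_zero.1 h4)

/-- if both signs are possible at a limit of transverse points then the point is transverse -/
theorem both {Λ : Set (E n × E n)} (hΛ : LagT n Λ) {z : E n × E n} (hz : z ∈ Λ)
    (h1 : Sgn Λ 1 z) (h2 : Sgn Λ (-1) z) (hd : ∀ N ∈ 𝓝 z, ∃ y ∈ Λ, y ∈ N ∧ Trans Λ y) :
    Trans Λ z := by
  obtain ⟨U₁, hU₁, C₁, h1⟩ := h1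
  obtain ⟨U₂, hU₂, C₂, h2⟩ := h2
  obtain ⟨C, hC⟩ : ∃ C, C = max (max C₁ C₂) 0 := ⟨_, rfl⟩
  have hC0 : 0 ≤ C := by rw [hC]; exact le_max_right _ _
  have hab : ∀ w ∈ Λ, w ∈ U₁ ∩ U₂ → ∀ a, Tan Λ w a → |⟪a.1, a.2⟫| ≤ C * ‖a.1‖ ^ 2 := by
    intro w hw hwU a ha
    have e1 := h1 w hw hwU.1 a ha
    have e2 := h2 w hw hwU.2 a ha
    have e3 : C₁ * ‖a.1‖ ^ 2 ≤ C * ‖a.1‖ ^ 2 :=
      mul_le_mul_of_nonneg_right (by rw [hC]; exact (le_max_left _ _).trans (le_max_left _ _))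
        (by positivity)
    have e4 : C₂ * ‖a.1‖ ^ 2 ≤ C * ‖a.1‖ ^ 2 :=
      mul_le_mul_of_nonneg_right (by rw [hC]; exact (le_max_right _ _).trans (le_max_left _ _))
        (by positivity)
    rw [abs_le]
    constructor <;> linarith
  -- the bound at transverse points
  have hT : ∀ w ∈ Λ, w ∈ U₁ ∩ U₂ → Trans Λ w → ∀ a, Tan Λ w a → ‖a.2‖ ≤ 3 * C * ‖a.1‖ := by
    intro w hw hwU ht a ha
    by_cases ha1 : a.1 = 0
    · rw [ht a ha ha1]
      simp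
    by_cases ha2 : a.2 = 0
    · rw [ha2, norm_zero]
      positivity
    have n1 : 0 < ‖a.1‖ := norm_pos_iff.2 ha1
    have n2 : 0 < ‖a.2‖ := norm_pos_iff.2 ha2
    obtain ⟨A, hA, -, h⟩ := tan_range hΛ hw
    have hi : Injective ((ContinuousLinearMap.fst ℝ (E n) (E n)).comp A : E n →ₗ[ℝ] E n) := by
      rw [← LinearMap.ker_eq_bot, LinearMap.ker_eq_bot']
      intro v hv
      have hv' : (A v).1 = 0 := hv
      have h3 := ht (A v) ((h _).2 ⟨v, rfl⟩) hv'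
      exact hA (h3.trans (map_zero A).symm)
    obtain ⟨v, hv⟩ := (LinearMap.injective_iff_surjective.1 hi) ((‖a.1‖ * ‖a.2‖⁻¹) • a.2)
    obtain ⟨b, hb⟩ : ∃ b, b = A v := ⟨_, rfl⟩
    have hbt : Tan Λ w b := (h _).2 ⟨v, hb⟩
    have hb1 : b.1 = (‖a.1‖ * ‖a.2‖⁻¹) • a.2 := by
      rw [hb]
      exact hv
    have hbn : ‖b.1‖ = ‖a.1‖ := by
      rw [hb1, norm_smul, norm_mul, norm_inv, norm_norm, norm_norm]
      field_simp
    have hba : ⟪b.1, a.2⟫ = ‖a.1‖ * ‖a.2‖ := by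
      rw [hb1, inner_smul_left, real_inner_self_eq_norm_sq]
      simp only [RCLike.conj_to_real]
      field_simp
    have e1 := hab w hw hwU _ (Tan.add hΛ hw ha hbt)
    have e2 := hab w hw hwU _ ha
    have e3 := hab w hw hwU _ hbt
    have e4 : ⟪(a + b).1, (a + b).2⟫ = ⟪a.1, a.2⟫ + 2 * ⟪b.1, a.2⟫ + ⟪b.1, b.2⟫ := by
      have e5 := Tan.iso hΛ hw ha hbt
      have e6 : ⟪a.1, b.2⟫ = ⟪b.1, a.2⟫ := by
        rw [real_inner_comm b.2, real_inner_comm a.2, e5]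
      show ⟪a.1 + b.1, a.2 + b.2⟫ = _
      rw [inner_add_left, inner_add_right, inner_add_right, e6]
      ring
    have e5 : ‖(a + b).1‖ ≤ 2 * ‖a.1‖ := by
      refine (norm_add_le a.1 b.1).trans ?_
      rw [hbn]
      linarith
    have e6 : ‖(a + b).1‖ ^ 2 ≤ 4 * ‖a.1‖ ^ 2 := by
      have := pow_le_pow_left₀ (norm_nonneg _) e5 2
      nlinarith
    have e7 := mul_le_mul_of_nonneg_left e6 hC0
    rw [e4, hba] at e1
    rw [hbn] at e3
    have e8 := (abs_le.1 e1).2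
    have e9 := (abs_le.1 e2).1
    have e10 := (abs_le.1 e3).1
    have e11 : ‖a.1‖ * ‖a.2‖ ≤ ‖a.1‖ * (3 * C * ‖a.1‖) := by nlinarith
    exact le_of_mul_le_mul_left e11 n1
  -- the limit
  obtain ⟨F, hF, hF0, hFi, hU, himm, -⟩ := hΛ.par z hz
  have hFΛ := mem_of_open hU
  have hAi : Injective (fderiv ℝ F 0) := by
    intro v w hvw
    have h1 : fderiv ℝ F 0 (v - w) = 0 := by rw [map_sub, hvw, sub_self]
    exact sub_eq_zero.1 (himm _ _ h1)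
  intro a ha ha1
  rw [← hF0] at ha
  obtain ⟨v, rfl⟩ := tan_rangeF hF hU hAi ha
  have hle : ‖(fderiv ℝ F 0 v).2‖ ≤ 3 * C * ‖(fderiv ℝ F 0 v).1‖ := by
    by_contra hcon
    push Not at hcon
    have hDc : Continuous fun x => fderiv ℝ F x v :=
      (hF.continuous_fderiv (by simp)).clm_apply continuous_const
    have hev : ∀ᶠ x in 𝓝 (0 : E n), 3 * C * ‖(fderiv ℝ F x v).1‖ < ‖(fderiv ℝ F x v).2‖ :=
      ((continuous_const.mul (continuous_fst.comp hDc).norm).continuousAt.eventually_lt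
        (continuous_snd.comp hDc).norm.continuousAt hcon)
    have hev2 : ∀ᶠ x in 𝓝 (0 : E n), F x ∈ U₁ ∩ U₂ :=
      hF.continuous.continuousAt.eventually (by rw [hF0]; exact inter_mem hU₁ hU₂)
    obtain ⟨V, hVs, hVo, hV0⟩ := _root_.mem_nhds_iff.1 (hev.and hev2)
    obtain ⟨U, hUo, hUV⟩ := hU V hVo
    have hzU : z ∈ U := by
      have h3 : F 0 ∈ F '' V := mem_image_of_mem _ hV0
      rw [hUV, hF0] at h3
      exact h3.2
    obtain ⟨y, hy, hyU, hyt⟩ := hd U (hUo.mem_nhds hzU)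
    have h3 : y ∈ F '' V := by rw [hUV]; exact ⟨hy, hyU⟩
    obtain ⟨x, hx, rfl⟩ := h3
    have h4 := hT _ hy (hVs hx).2 hyt _ (tan_of hF hFΛ x v)
    exact absurd h4 (not_le.2 (hVs hx).1)
  rw [ha1, norm_zero, mul_zero] at hle
  exact Prod.ext ha1 (norm_le_zero_iff.1 hle)

theorem latt_neg_add (x : E n) (k : Fin n → ℤ) : x + latt k + latt (-k) = x := by
  ext i
  show x i + (k i : ℝ) + ((-k i : ℤ) : ℝ) = x i
  push_cast
  ring

theorem Tan.trans_iff {Λ : Set (E n × E n)} (hp : ∀ z ∈ Λ, ∀ k : Fin n → ℤ, (z.1 + latt k, z.2) ∈ Λ)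
    {z a : E n × E n} (k : Fin n → ℤ) : Tan Λ (z.1 + latt k, z.2) a ↔ Tan Λ z a := by
  refine ⟨fun h => ?_, fun h => h.trans hp k⟩
  have h1 := h.trans hp (-k)
  simp only [latt_neg_add] at h1
  exact h1

theorem Trans.trans {Λ : Set (E n × E n)} (hp : ∀ z ∈ Λ, ∀ k : Fin n → ℤ, (z.1 + latt k, z.2) ∈ Λ)
    {z : E n × E n} (k : Fin n → ℤ) : Trans Λ (z.1 + latt k, z.2) ↔ Trans Λ z := by
  unfold Trans
  simp only [Tan.trans_iff hp k]

theorem Sgn.trans {Λ : Set (E n × E n)} (hp : ∀ z ∈ Λ, ∀ k : Fin n → ℤ, (z.1 + latt k, z.2) ∈ Λ)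
    {ε : ℝ} {z : E n × E n} (h : Sgn Λ ε z) (k : Fin n → ℤ) : Sgn Λ ε (z.1 + latt k, z.2) := by
  obtain ⟨U, hU, C, h⟩ := h
  have hc : Continuous fun w : E n × E n => (w.1 + latt (-k), w.2) :=
    (continuous_fst.add continuous_const).prodMk continuous_snd
  refine ⟨(fun w : E n × E n => (w.1 + latt (-k), w.2)) ⁻¹' U, hc.continuousAt.preimage_mem_nhds ?_,
    C, fun w hw hwU a ha => ?_⟩
  · simp only [latt_neg_add]
    exact hU
  · exact h _ (hp w hw (-k)) hwU a ((Tan.trans_iff hp (-k)).2 ha)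

/-- the second derivative of `ε ‖p‖² / 2` -/
theorem hpp_sq {K : E n × E n → ℝ} {ε : ℝ} {z : E n × E n}
    (he : K =ᶠ[𝓝 z] fun w => ε * (‖w.2‖ ^ 2 / 2)) (u v : E n) : Hpp K z u v = ε * ⟪u, v⟫ := by
  have hs : ContDiff ℝ ∞ (fun w : E n × E n => ε * (‖w.2‖ ^ 2 / 2)) :=
    contDiff_const.mul ((contDiff_snd.norm_sq ℝ).div_const 2)
  have s2 : ContDiff ℝ ∞ (fun w : E n × E n => ε • w.2) := contDiff_snd.const_smul ε
  have hk : ∀ w a, fderiv ℝ (fun w : E n × E n => ε * (‖w.2‖ ^ 2 / 2)) w a =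
      ⟪(fun _ : E n × E n => (0 : E n)) w, a.1⟫ + ⟪(fun w : E n × E n => ε • w.2) w, a.2⟫ := by
    intro w a
    have h1 : HasFDerivAt (fun w : E n × E n => w.2) (ContinuousLinearMap.snd ℝ (E n) (E n)) w :=
      hasFDerivAt_snd
    have h2 := (h1.norm_sq).const_mul (ε / 2)
    have h3 : HasFDerivAt (fun w : E n × E n => ε * (‖w.2‖ ^ 2 / 2))
        ((ε / 2) • (2 • (innerSL ℝ w.2).comp (ContinuousLinearMap.snd ℝ (E n) (E n)))) w :=
      h2.congr_of_eventuallyEq (Eventually.of_forall fun x => by ring)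
    rw [h3.fderiv]
    simp only [inner_zero_left, zero_add, inner_smul_left, RCLike.conj_to_real]
    show ε / 2 * (2 • (⟪w.2, a.2⟫ : ℝ)) = _
    rw [nsmul_eq_mul]
    push_cast
    ring
  rw [hpp_eq hs s2 hk he]
  have h4 : HasFDerivAt (fun w : E n × E n => ε • w.2)
      (ε • ContinuousLinearMap.snd ℝ (E n) (E n)) z := hasFDerivAt_snd.const_smul ε
  rw [h4.fderiv]
  show ⟪ε • u, v⟫ = _
  rw [inner_smul_left]
  rfl

/-- exact Lagrangian submanifolds with a semidefinite caustic of varying sign are images of the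
zero section -/
theorem signs {Λ : Set (E n × E n)} (hΛ : LagT n Λ) {g : E n × E n → ℝ} (hg : Exact Λ g)
    (h : ∀ z ∈ Λ, Trans Λ z ∨ ((∃ ε : ℝ, (ε = 1 ∨ ε = -1) ∧ Sgn Λ ε z) ∧
      ∀ N ∈ 𝓝 z, ∃ y ∈ Λ, y ∈ N ∧ Trans Λ y)) :
    ∃ ψ : E n × E n ≃ E n × E n, ContDiff ℝ ∞ ψ ∧ ContDiff ℝ ∞ ψ.symm ∧
      (∀ z k, ψ (z.1 + latt k, z.2) = ((ψ z).1 + latt k, (ψ z).2)) ∧
      (∀ z a b, om (fderiv ℝ ψ z a) (fderiv ℝ ψ z b) = om a b) ∧ ψ '' {z | z.2 = 0} = Λ := by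
  obtain ⟨R, hR⟩ := hΛ.bdd
  have hcl : ∀ δ : ℝ, (δ = 1 ∨ δ = -1) → IsClosed {z | z ∈ Λ ∧ ¬ Trans Λ z ∧ Sgn Λ δ z} := by
    intro δ hδ
    rw [isClosed_iff_nhds]
    intro z hz
    have hzΛ : z ∈ Λ := by
      rw [← hΛ.closed.closure_eq, mem_closure_iff_nhds]
      intro t ht
      obtain ⟨y, hy, hy2⟩ := hz t ht
      exact ⟨y, hy, hy2.1⟩
    have hzt : ¬ Trans Λ z := by
      intro ht
      obtain ⟨U, hU, h1⟩ := trans_open hΛ hzΛ ht
      obtain ⟨y, hyU, hy⟩ := hz U hU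
      exact hy.2.1 (h1 y hy.1 hyU)
    refine ⟨hzΛ, hzt, ?_⟩
    rcases h z hzΛ with h1 | ⟨⟨ε, hε, hs⟩, hd⟩
    · exact absurd h1 hzt
    · by_cases he : ε = δ
      · rwa [← he]
      · exfalso
        obtain ⟨U, hU, C, h1⟩ := hs
        obtain ⟨V, hVU, hVo, hzV⟩ := _root_.mem_nhds_iff.1 hU
        obtain ⟨y, hyV, hy, hyt, hys⟩ := hz V (hVo.mem_nhds hzV)
        have hys' : Sgn Λ ε y := ⟨V, hVo.mem_nhds hyV, C, fun w hw hwV => h1 w hw (hVU hwV)⟩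
        rcases h y hy with h2 | ⟨-, hdy⟩
        · exact hyt h2
        · apply hyt
          rcases hε with rfl | rfl <;> rcases hδ with rfl | rfl
          · exact absurd rfl he
          · exact both hΛ hy hys' hys hdy
          · exact both hΛ hy hys hys' hdy
          · exact absurd rfl he
  have hper : ∀ δ : ℝ, ∀ z ∈ {z | z ∈ Λ ∧ ¬ Trans Λ z ∧ Sgn Λ δ z}, ∀ k : Fin n → ℤ,
      (z.1 + latt k, z.2) ∈ {z | z ∈ Λ ∧ ¬ Trans Λ z ∧ Sgn Λ δ z} := by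
    rintro δ z ⟨h1, h2, h3⟩ k
    exact ⟨hΛ.per z h1 k, fun h4 => h2 ((Trans.trans hΛ.per k).1 h4), h3.trans hΛ.per k⟩
  have hdis : Disjoint {z | z ∈ Λ ∧ ¬ Trans Λ z ∧ Sgn Λ 1 z}
      {z | z ∈ Λ ∧ ¬ Trans Λ z ∧ Sgn Λ (-1) z} := by
    rw [Set.disjoint_left]
    rintro z ⟨h1, h2, h3⟩ ⟨-, -, h4⟩
    rcases h z h1 with h5 | ⟨-, hd⟩
    · exact h2 h5
    · exact h2 (both hΛ h1 h3 h4 hd)
  obtain ⟨s, s1, s2, s3, s4⟩ := sep (hcl 1 (Or.inl rfl)) (hcl (-1) (Or.inr rfl)) hdis (hper 1)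
    (hper (-1)) (fun z hz => hR z hz.1)
  obtain ⟨K, hKd⟩ : ∃ K : E n × E n → ℝ, K = fun w => s w * (‖w.2‖ ^ 2 / 2) := ⟨_, rfl⟩
  have hK : ContDiff ℝ ∞ K := by
    rw [hKd]
    exact s1.mul ((contDiff_snd.norm_sq ℝ).div_const 2)
  have hKp : ∀ w (k : Fin n → ℤ), K (w.1 + latt k, w.2) = K w := by
    intro w k
    rw [hKd]
    simp only [s2]
  have hnear : ∀ ε : ℝ, (ε = 1 ∨ ε = -1) → ∀ z, Sgn Λ ε z → s =ᶠ[𝓝 z] (fun _ => ε) →
      ∃ U ∈ 𝓝 z, ∃ b C : ℝ, 0 < b ∧ ∀ w ∈ Λ, w ∈ U → Side Λ K b C w := by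
    intro ε hε z hs he
    obtain ⟨U, hU, C, h1⟩ := hs
    have hee : ε * ε = 1 := by rcases hε with rfl | rfl <;> norm_num
    refine ⟨U ∩ {w | s =ᶠ[𝓝 w] fun _ => ε}, inter_mem hU he.eventually_nhds, 1, max C 0, one_pos,
      fun w hw hwU a ha => ?_⟩
    have hH : ∀ u v, Hpp K w u v = ε * ⟪u, v⟫ := by
      intro u v
      refine hpp_sq ?_ u v
      have h2 : s =ᶠ[𝓝 w] fun _ => ε := hwU.2
      filter_upwards [h2] with x hx
      rw [hKd]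
      simp only [hx]
    have h3 := h1 w hw hwU.1 a ha
    have hCC : C * ‖a.1‖ ^ 2 ≤ max C 0 * ‖a.1‖ ^ 2 :=
      mul_le_mul_of_nonneg_right (le_max_left _ _) (by positivity)
    have hC1 : 0 ≤ max C 0 * ‖a.1‖ := mul_nonneg (le_max_right _ _) (norm_nonneg _)
    rw [hH, real_inner_comm]
    refine ⟨by linarith, ?_⟩
    by_cases ha2 : a.2 = 0
    · refine ⟨0, by simp, ?_⟩
      rw [ha2, norm_zero, mul_zero, hH, inner_zero_right, mul_zero, zero_add]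
      exact hC1
    · have n2 : 0 < ‖a.2‖ := norm_pos_iff.2 ha2
      refine ⟨(ε * ‖a.2‖⁻¹) • a.2, ?_, ?_⟩
      · rw [norm_smul, norm_mul, norm_inv, norm_norm]
        have : ‖ε‖ = 1 := by rcases hε with rfl | rfl <;> simp
        rw [this, one_mul, inv_mul_cancel₀ n2.ne']
      · rw [hH, inner_smul_right, real_inner_self_eq_norm_sq]
        have h4 : ε * (ε * ‖a.2‖⁻¹ * ‖a.2‖ ^ 2) = ‖a.2‖ := by
          have h5 : ε * (ε * ‖a.2‖⁻¹ * ‖a.2‖ ^ 2) = (ε * ε) * (‖a.2‖⁻¹ * ‖a.2‖ ^ 2) := by ring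
          rw [h5, hee, one_mul, sq, ← mul_assoc, inv_mul_cancel₀ n2.ne', one_mul]
        rw [h4, one_mul]
        linarith
  obtain ⟨b, C, hb, hC, hs⟩ := uniform hΛ hKp (fun z hz => by
    by_cases ht : Trans Λ z
    · exact side_of_transverse hΛ hK hz ht
    · rcases h z hz with h1 | ⟨⟨ε, hε, hs⟩, -⟩
      · exact absurd h1 ht
      · rcases hε with rfl | rfl
        · exact hnear 1 (Or.inl rfl) z hs (s3 z ⟨hz, ht, hs⟩)
        · exact hnear (-1) (Or.inr rfl) z hs (s4 z ⟨hz, ht, hs⟩))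
  exact criterion hΛ hg K hK hKp hb hC hs

end Pool.Agent.Q131.EL
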